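import Pool.Agent.Lib.MP_1bbd88_ag.U.UDefs
import Pool.Agent.Lib.MP_1bbd88_ag.S.B1

set_option autoImplicit false

namespace Pool.Agent.Lib.MP_1bbd88_ag.U

open Module TensorProduct IsLocalRing Pool.Agent.Lib.MP_1bbd88_ag.S Pool.Agent.Lib.MP_1bbd88_ag.T

/-- the differentials of the variables generate -/
theorem span_dX {K : Type*} [Field K] [IsAlgClosed K] {n p : ℕ} [Fact p.Prime] [CharP K p]
    (e : ℕ) (Q : Ideal (MvPowerSeries (Fin n) K)) [Q.IsPrime] :
    Submodule.span (FF Q) (Set.range (dX p e Q)) = ⊤ := by
  rw [eq_top_iff, ← KaehlerDifferential.span_range_derivation, Submodule.span_le]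
  rintro _ ⟨x, rfl⟩
  have hx : x ∈ Submodule.span (kq (FF Q) p e) (Set.range fun β : Fin n → Fin (p ^ e) =>
      jj Q (∏ i, MvPowerSeries.X i ^ (β i : ℕ))) := by
    rw [span_mon]; exact Submodule.mem_top
  show KaehlerDifferential.D (kq (FF Q) p e) (FF Q) x ∈
    Submodule.span (FF Q) (Set.range (dX p e Q))
  induction hx using Submodule.span_induction with
  | mem y hy =>
    obtain ⟨β, rfl⟩ := hy
    obtain ⟨s, hs⟩ := d_span e Q (∏ i, MvPowerSeries.X i ^ (β i : ℕ))
    rw [hs]
    exact Submodule.sum_mem _ fun i _ =>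
      Submodule.smul_mem _ _ (Submodule.subset_span ⟨i, rfl⟩)
  | zero => rw [map_zero]; exact Submodule.zero_mem _
  | add y z _ _ h1 h2 => rw [map_add]; exact Submodule.add_mem _ h1 h2
  | smul c y _ h1 =>
    rw [Algebra.smul_def, Derivation.leibniz, Derivation.map_algebraMap, smul_zero, add_zero]
    exact Submodule.smul_mem _ _ h1

/-- monomials with exponents `< p` span the algebra generated by `z` over `F ^ p` -/
theorem U1_finrank_le {F : Type*} [Field F] {p : ℕ} [Fact p.Prime] [CharP F p] {s : ℕ}
    (z : Fin s → F) (h : Algebra.adjoin (kq F p 1) (Set.range z) = ⊤) :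
    finrank (kq F p 1) F ≤ p ^ s := by
  classical
  set N : Submodule (kq F p 1) F := Submodule.span (kq F p 1)
    (Set.range fun β : Fin s → Fin p => ∏ i, z i ^ (β i : ℕ)) with hN
  have hp : 0 < p := (Fact.out (p := p.Prime)).pos
  have hmon : ∀ β : Fin s → ℕ, ∏ i, z i ^ β i ∈ N := by
    intro β
    have h1 : ∏ i, z i ^ β i = (∏ i, z i ^ (β i / p)) ^ p *
        ∏ i, z i ^ (((⟨β i % p, Nat.mod_lt _ hp⟩ : Fin p) : ℕ)) := by
      rw [← Finset.prod_pow Finset.univ p fun i => z i ^ (β i / p), ← Finset.prod_mul_distrib]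
      refine Finset.prod_congr rfl fun i _ => ?_
      rw [← pow_mul, ← pow_add]
      congr 1
      show β i = β i / p * p + β i % p
      rw [Nat.div_add_mod']
    have h2 : (∏ i, z i ^ (β i / p)) ^ p ∈ kq F p 1 := by
      have h5 := F0_mem_kq (p := p) 1 (∏ i, z i ^ (β i / p))
      rwa [pow_one] at h5
    rw [h1]
    have h3 := N.smul_mem ⟨_, h2⟩ (Submodule.subset_span
      (s := Set.range fun β : Fin s → Fin p => ∏ i, z i ^ (β i : ℕ))
      ⟨fun i => ⟨β i % p, Nat.mod_lt _ hp⟩, rfl⟩)
    exact h3
  have htop : N = ⊤ := by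
    rw [eq_top_iff]
    intro x _
    have hx : x ∈ Algebra.adjoin (kq F p 1) (Set.range z) := by rw [h]; exact Algebra.mem_top
    rw [Algebra.adjoin_range_eq_range_aeval] at hx
    obtain ⟨q, rfl⟩ := hx
    clear * - hmon
    induction q using MvPolynomial.induction_on' with
    | monomial u a =>
      have h4 : (MvPolynomial.aeval z : MvPolynomial (Fin s) (kq F p 1) →ₐ[kq F p 1] F).toRingHom
          (MvPolynomial.monomial u a) = a • ∏ i, z i ^ u i := by
        show MvPolynomial.aeval z (MvPolynomial.monomial u a) = a • ∏ i, z i ^ u i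
        rw [MvPolynomial.aeval_monomial, Algebra.smul_def]
        congr 1
        rw [Finsupp.prod_fintype _ _ (fun i => pow_zero _)]
      rw [h4]
      exact N.smul_mem _ (hmon _)
    | add q r hq hr =>
      rw [map_add]
      exact N.add_mem hq hr
  calc finrank (kq F p 1) F = finrank (kq F p 1) (⊤ : Submodule (kq F p 1) F) := by
        rw [finrank_top]
    _ = finrank (kq F p 1) N := by rw [htop]
    _ ≤ Fintype.card (Fin s → Fin p) := by
        rw [hN]
        exact finrank_range_le_card _
    _ = p ^ s := by simp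

/-- the differentials of generators generate -/
theorem U1_card_le {F : Type*} [Field F] {p : ℕ} [Fact p.Prime] [CharP F p] {s m : ℕ}
    (z : Fin s → F) (hli : LinearIndependent F fun l => KaehlerDifferential.D (kq F p 1) F (z l))
    (w : Fin m → F) (h : Algebra.adjoin (kq F p 1) (Set.range w) = ⊤) : s ≤ m := by
  classical
  set N : Submodule F (KaehlerDifferential (kq F p 1) F) := Submodule.span F
    (Set.range fun l => KaehlerDifferential.D (kq F p 1) F (w l)) with hN
  have htop : N = ⊤ := by
    rw [eq_top_iff, ← KaehlerDifferential.span_range_derivation, Submodule.span_le]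
    rintro _ ⟨x, rfl⟩
    show KaehlerDifferential.D (kq F p 1) F x ∈ N
    have hx : x ∈ Algebra.adjoin (kq F p 1) (Set.range w) := by rw [h]; exact Algebra.mem_top
    induction hx using Algebra.adjoin_induction with
    | mem x hx =>
      obtain ⟨i, rfl⟩ := hx
      exact Submodule.subset_span ⟨i, rfl⟩
    | algebraMap r => rw [Derivation.map_algebraMap]; exact N.zero_mem
    | add x y _ _ h1 h2 => rw [map_add]; exact N.add_mem h1 h2
    | mul x y _ _ h1 h2 =>
      rw [Derivation.leibniz]
      exact N.add_mem (N.smul_mem _ h2) (N.smul_mem _ h1)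
  have h1 : Module.Finite F (KaehlerDifferential (kq F p 1) F) := by
    refine ⟨⟨Finset.univ.image fun l => KaehlerDifferential.D (kq F p 1) F (w l), ?_⟩⟩
    rw [← htop, hN, Finset.coe_image, Finset.coe_univ, Set.image_univ]
  have h2 := hli.fintype_card_le_finrank
  have h3 : finrank F (KaehlerDifferential (kq F p 1) F) ≤ m := by
    rw [← finrank_top, ← htop, hN]
    exact (finrank_range_le_card _).trans (by simp)
  simpa using h2.trans h3

/-- a family whose differentials are a basis is a `p`-basis -/
theorem pbasis_of_basis {F : Type*} [Field F] {p : ℕ} [Fact p.Prime] [CharP F p]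
    [FiniteDimensional (kq F p 1) F] {s : ℕ} (z : Fin s → F)
    (hli : LinearIndependent F fun l => KaehlerDifferential.D (kq F p 1) F (z l))
    (hsp : Submodule.span F (Set.range fun l => KaehlerDifferential.D (kq F p 1) F (z l)) = ⊤) :
    Algebra.adjoin (kq F p 1) (Set.range z) = ⊤ ∧ finrank (kq F p 1) F = p ^ s := by
  classical
  have hadj : Algebra.adjoin (kq F p 1) (Set.range z) = ⊤ := by
    set L : IntermediateField (kq F p 1) F := IntermediateField.adjoin (kq F p 1) (Set.range z)
      with hL
    have hLa : L.toSubalgebra = Algebra.adjoin (kq F p 1) (Set.range z) :=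
      IntermediateField.adjoin_toSubalgebra_of_isAlgebraic
        fun x _ => Algebra.IsAlgebraic.isAlgebraic x
    -- the differentials over `L` vanish
    have hD0 : ∀ x, KaehlerDifferential.D L F x = 0 := by
      have h1 : KaehlerDifferential.map (kq F p 1) L F F = 0 := by
        apply LinearMap.ext_on_range hsp
        intro l
        rw [KaehlerDifferential.map_D, LinearMap.zero_apply]
        have hz : z l ∈ L := IntermediateField.subset_adjoin _ _ ⟨l, rfl⟩
        exact (KaehlerDifferential.D L F).map_algebraMap ⟨z l, hz⟩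
      intro x
      have h2 := KaehlerDifferential.map_D (kq F p 1) L F F x
      rw [h1, LinearMap.zero_apply] at h2
      exact h2.symm
    have hbot : (⊤ : Submodule F (KaehlerDifferential L F)) = ⊥ := by
      rw [← KaehlerDifferential.span_range_derivation, Submodule.span_eq_bot]
      rintro _ ⟨x, rfl⟩
      exact hD0 x
    have hsub : Subsingleton (KaehlerDifferential L F) := by
      refine ⟨fun a b => ?_⟩
      have ha : a ∈ (⊤ : Submodule F (KaehlerDifferential L F)) := Submodule.mem_top
      have hb : b ∈ (⊤ : Submodule F (KaehlerDifferential L F)) := Submodule.mem_top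
      rw [hbot, Submodule.mem_bot] at ha hb
      rw [ha, hb]
    have hun : Algebra.FormallyUnramified L F := ⟨hsub⟩
    have hch : CharP L p :=
      ((algebraMap L F).charP_iff (algebraMap L F).injective p).mpr inferInstance
    have hpi : IsPurelyInseparable L F := by
      rw [isPurelyInseparable_iff_pow_mem L p]
      intro x
      refine ⟨1, ?_⟩
      have hx : x ^ p ^ 1 ∈ kq F p 1 := ⟨x, by simp [frobenius_def]⟩
      exact ⟨⟨x ^ p ^ 1, L.algebraMap_mem ⟨_, hx⟩⟩, rfl⟩
    have hft : Algebra.EssFiniteType L F := inferInstance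
    have h3 := Algebra.FormallyUnramified.range_eq_top_of_isPurelyInseparable L F
    rw [← hLa, eq_top_iff]
    intro x _
    have h4 : x ∈ (algebraMap L F).range := by rw [h3]; exact Subring.mem_top x
    obtain ⟨y, rfl⟩ := h4
    exact y.2
  refine ⟨hadj, le_antisymm (U1_finrank_le z hadj) ?_⟩
  obtain ⟨m, w, h1, h2⟩ := exists_pbasis F p
  rw [h1]
  exact Nat.pow_le_pow_right (Fact.out (p := p.Prime)).pos (U1_card_le z hli w h2)

end Pool.Agent.Lib.MP_1bbd88_ag.U
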