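import Pool.Agent.Lib.MP_1bbd88_ag.U.UDefs
import Pool.Agent.Lib.MP_1bbd88_ag.S.B3

set_option autoImplicit false

namespace Pool.Agent.Lib.MP_1bbd88_ag.U

open Module TensorProduct IsLocalRing Pool.Agent.Lib.MP_1bbd88_ag.S Pool.Agent.Lib.MP_1bbd88_ag.T

theorem U10_one_tmul {F Ω : Type*} [Field F] [Field Ω] [Algebra F Ω] {p : ℕ} [Fact p.Prime]
    [CharP F p] {e : ℕ} (r : F) : ((1 : Ω) ⊗ₜ[kq F p e] r : TT F Ω p e) =
      algebraMap Ω (TT F Ω p e) (algebraMap F Ω r) + DD Ω p e r := by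
  rw [DD, Algebra.TensorProduct.algebraMap_apply]
  simp

theorem U10_smul {F Ω : Type*} [Field F] [Field Ω] [Algebra F Ω] {p : ℕ} [Fact p.Prime]
    [CharP F p] {e : ℕ} (c : Ω) (y : TT F Ω p e) : c • y = algebraMap Ω (TT F Ω p e) c * y :=
  Algebra.smul_def c y

/-- the computation modulo a power of an ideal, in an abstract ring -/
theorem U10_abs {T : Type*} [CommRing T] (J : Ideal T) {s n : ℕ} (D : Fin n → T) (E : Fin s → T)
    (a : Fin n → Fin s → T) (hE : ∀ l, E l ∈ J) (hD : ∀ i, D i ∈ J)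
    (ha : ∀ i, D i - ∑ l, a i l * E l ∈ J ^ 2) (g g' : Fin n → Fin n → T)
    (hg : ∀ i j, g' i j - g i j ∈ J) :
    ∑ i, ∑ j, g' i j * (D i * D j) -
      ∑ l, ∑ m, (∑ i, ∑ j, a i l * g i j * a j m) * (E l * E m) ∈ J ^ 3 := by
  have hL : ∀ i, ∑ l, a i l * E l ∈ J := fun i =>
    Ideal.sum_mem _ fun l _ => J.mul_mem_left _ (hE l)
  have e1 : ∑ l, ∑ m, (∑ i, ∑ j, a i l * g i j * a j m) * (E l * E m) =
      ∑ i, ∑ j, g i j * ((∑ l, a i l * E l) * (∑ m, a j m * E m)) := by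
    have e0 : ∀ i j, g i j * ((∑ l, a i l * E l) * (∑ m, a j m * E m)) =
        ∑ l, ∑ m, (a i l * g i j * a j m) * (E l * E m) := by
      intro i j
      rw [Finset.sum_mul_sum, Finset.mul_sum]
      refine Finset.sum_congr rfl fun l _ => ?_
      rw [Finset.mul_sum]
      refine Finset.sum_congr rfl fun m _ => ?_
      ring
    rw [Finset.sum_congr rfl fun i _ => Finset.sum_congr rfl fun j _ => e0 i j]
    simp only [Finset.sum_mul]
    rw [Finset.sum_congr rfl fun l _ => Finset.sum_comm]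
    rw [Finset.sum_comm]
    refine Finset.sum_congr rfl fun i _ => ?_
    rw [Finset.sum_congr rfl fun l _ => Finset.sum_comm]
    rw [Finset.sum_comm]
  rw [e1, ← Finset.sum_sub_distrib]
  refine Ideal.sum_mem _ fun i _ => ?_
  rw [← Finset.sum_sub_distrib]
  refine Ideal.sum_mem _ fun j _ => ?_
  have e2 : g' i j * (D i * D j) - g i j * ((∑ l, a i l * E l) * (∑ m, a j m * E m)) =
      (g' i j - g i j) * (D i * D j) + g i j * ((D i - ∑ l, a i l * E l) * D j +
        (∑ l, a i l * E l) * (D j - ∑ m, a j m * E m)) := by ring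
  rw [e2]
  have h3 : J ^ 3 = J * (J * J) := by ring
  have h3' : J ^ 3 = J ^ 2 * J := by ring
  have h3'' : J ^ 3 = J * J ^ 2 := by ring
  refine Ideal.add_mem _ ?_ (Ideal.mul_mem_left _ _ (Ideal.add_mem _ ?_ ?_))
  · rw [h3]; exact Ideal.mul_mem_mul (hg i j) (Ideal.mul_mem_mul (hD i) (hD j))
  · rw [h3']; exact Ideal.mul_mem_mul (ha i) (hD j)
  · rw [h3'']; exact Ideal.mul_mem_mul (hL i) (ha j)

/-- the quadratic part of a quadratic expression in `T` -/
theorem hasQ_symm {F Ω : Type*} [Field F] [Field Ω] [Algebra F Ω] {p : ℕ} [Fact p.Prime]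
    [CharP F p] {s e n : ℕ} (z : Fin s → F) (ε : W s (p ^ e) Ω ≃ₐ[Ω] TT F Ω p e)
    (hε : ∀ l, ε (wx s (p ^ e) Ω l) = DD Ω p e (z l))
    (hdd : dd F Ω p e = Ideal.span (Set.range fun l => DD Ω p e (z l)))
    (x : Fin n → F) (a : Matrix (Fin n) (Fin s) F)
    (ha : ∀ i, DD Ω p e (x i) - ∑ l, algebraMap F Ω (a i l) • DD Ω p e (z l) ∈
      dd F Ω p e ^ 2)
    (g : Matrix (Fin n) (Fin n) F) (τ : Matrix (Fin s) (Fin s) F) :
    HasQ (ε.symm (∑ i, ∑ j, ((1 : Ω) ⊗ₜ[kq F p e] g i j) * (DD Ω p e (x i) * DD Ω p e (x j)) -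
      ∑ l, ∑ m, algebraMap F Ω (τ l m) • (DD Ω p e (z l) * DD Ω p e (z m))))
      ((gram g a - τ).map (algebraMap F Ω)) := by
  have hwm : (wm s (p ^ e) Ω).map (ε : W s (p ^ e) Ω →+* TT F Ω p e) = dd F Ω p e := by
    rw [wm, Ideal.map_span, hdd, ← Set.range_comp]
    congr 1
    congr 1
    funext l
    exact hε l
  have hmem : ∀ y : W s (p ^ e) Ω, ε y ∈ dd F Ω p e ^ 3 → y ∈ wm s (p ^ e) Ω ^ 3 := by
    intro y hy
    rw [← hwm, ← Ideal.map_pow] at hy
    have h4 := (Ideal.mem_map_of_equiv (ε : W s (p ^ e) Ω ≃+* TT F Ω p e) (I := wm s (p ^ e) Ω ^ 3)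
      (ε y)).mp hy
    obtain ⟨y', hy', h5⟩ := h4
    have h6 : y' = y := ε.injective h5
    rw [← h6]
    exact hy'
  rw [HasQ]
  apply hmem
  rw [map_sub, AlgEquiv.apply_symm_apply, map_sum]
  simp only [map_sum, map_mul, AlgEquiv.commutes, hε]
  have hDD : ∀ r : F, DD Ω p e r ∈ dd F Ω p e := fun r => Ideal.subset_span ⟨r, rfl⟩
  have key := U10_abs (dd F Ω p e) (fun i => DD Ω p e (x i)) (fun l => DD Ω p e (z l))
    (fun i l => algebraMap Ω (TT F Ω p e) (algebraMap F Ω (a i l))) (fun l => hDD _)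
    (fun i => hDD _) (by
      intro i
      have h7 := ha i
      have h8 : ∑ l, algebraMap F Ω (a i l) • DD Ω p e (z l) =
          ∑ l, algebraMap Ω (TT F Ω p e) (algebraMap F Ω (a i l)) * DD Ω p e (z l) :=
        Finset.sum_congr rfl fun l _ => U10_smul _ _
      rw [h8] at h7
      exact h7)
    (fun i j => algebraMap Ω (TT F Ω p e) (algebraMap F Ω (g i j)))
    (fun i j => (1 : Ω) ⊗ₜ[kq F p e] g i j) (by
      intro i j
      change (1 : Ω) ⊗ₜ[kq F p e] g i j - algebraMap Ω (TT F Ω p e) (algebraMap F Ω (g i j)) ∈ _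
      rw [U10_one_tmul, add_sub_cancel_left]
      exact hDD _)
  convert key using 1
  rw [sub_sub]
  congr 1
  rw [← Finset.sum_add_distrib]
  refine Finset.sum_congr rfl fun l _ => ?_
  rw [← Finset.sum_add_distrib]
  refine Finset.sum_congr rfl fun m _ => ?_
  have e5 : ∀ (c : Ω) (y : TT F Ω p e), c • y = algebraMap Ω (TT F Ω p e) c * y :=
    fun c y => Algebra.smul_def c y
  have e6 : algebraMap Ω (TT F Ω p e) (((gram g a - τ).map (algebraMap F Ω)) l m) =
      (∑ i, ∑ j, algebraMap Ω (TT F Ω p e) (algebraMap F Ω (a i l)) *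
        algebraMap Ω (TT F Ω p e) (algebraMap F Ω (g i j)) *
        algebraMap Ω (TT F Ω p e) (algebraMap F Ω (a j m))) -
      algebraMap Ω (TT F Ω p e) (algebraMap F Ω (τ l m)) := by
    have e7 : ((gram g a - τ).map (algebraMap F Ω)) l m =
        algebraMap F Ω (gram g a l m) - algebraMap F Ω (τ l m) := by
      rw [← map_sub]; rfl
    have e8 : gram g a l m = ∑ i, ∑ j, a i l * g i j * a j m := by
      rw [gram, Matrix.mul_apply]
      simp only [Matrix.mul_apply, Matrix.transpose_apply, Finset.sum_mul]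
      rw [Finset.sum_comm]
    rw [e7, map_sub, e8]
    simp only [map_sum, map_mul]
  rw [e5, e6]
  ring

end Pool.Agent.Lib.MP_1bbd88_ag.U
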