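import Pool.Agent.Lib.MP_1bbd88_ag.T.G9
import Pool.Agent.Lib.MP_1bbd88_ag.T.G1
import Pool.Agent.Lib.MP_1bbd88_ag.S.N1

set_option autoImplicit false

namespace Pool.Agent.Lib.MP_1bbd88_ag.U

open Module TensorProduct IsLocalRing Pool.Agent.Lib.MP_1bbd88_ag.S Pool.Agent.Lib.MP_1bbd88_ag.T

private theorem U12_sup (k : Type*) [Field k] (D q t : ℕ) :
    finrank k (MvPolynomial (Fin D) k ⧸
      (powI (Fin D) k q ⊔
        Ideal.span {(∑ i, (MvPolynomial.X i : MvPolynomial (Fin D) k) ^ 2) ^ t})) =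
      ph k D q t := by
  have h1 := (DoubleQuot.quotQuotEquivQuotSupₐ k (powI (Fin D) k q)
    (Ideal.span {(∑ i, (MvPolynomial.X i : MvPolynomial (Fin D) k) ^ 2) ^ t})).toLinearEquiv.finrank_eq
  rw [← h1, ph, co]
  have h2 : (Ideal.span {(∑ i, (MvPolynomial.X i : MvPolynomial (Fin D) k) ^ 2) ^ t}).map
      (Ideal.Quotient.mkₐ k (powI (Fin D) k q)) = Ideal.span {(sq k D q) ^ t} := by
    rw [Ideal.map_span, Set.image_singleton, map_pow, map_sum]
    simp only [map_pow]
    rfl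
  rw [h2]

/-- the colengths of the powers of the quadric do not depend on the field -/
theorem ph_ext (k Ω : Type*) [Field k] [Field Ω] [Algebra k Ω] (d q t : ℕ) :
    ph Ω d q t = ph k d q t := by
  have h : (powI (Fin d) k q ⊔
      Ideal.span {(∑ i, (MvPolynomial.X i : MvPolynomial (Fin d) k) ^ 2) ^ t}).map
        (MvPolynomial.map (algebraMap k Ω)) = powI (Fin d) Ω q ⊔
      Ideal.span {(∑ i, (MvPolynomial.X i : MvPolynomial (Fin d) Ω) ^ 2) ^ t} := by
    rw [Ideal.map_sup, powI, powI, Ideal.map_span, Ideal.map_span, Set.image_singleton,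
      ← Set.range_comp]
    congr 3
    · funext i
      simp
    · simp
  rw [← U12_sup, ← U12_sup, ← N1_base k Ω, h]

end Pool.Agent.Lib.MP_1bbd88_ag.U
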