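import Pool.Agent.Lib.MP_1bbd88_ag.U.UDefs

set_option autoImplicit false

namespace Pool.Agent.Lib.MP_1bbd88_ag.U

open Module TensorProduct IsLocalRing Pool.Agent.Lib.MP_1bbd88_ag.S Pool.Agent.Lib.MP_1bbd88_ag.T

theorem U3_zero {F : Type*} [Field F] {p : ℕ} [Fact p.Prime] [CharP F p] (e : ℕ) (c : F) (hc : c ∈ kq F p 1) :
    KaehlerDifferential.D (kq F p e) F c = 0 := by
  obtain ⟨z, rfl⟩ := hc
  have h1 : iterateFrobenius F p 1 z = z ^ p := by
    rw [iterateFrobenius_def, pow_one]
  rw [h1, Derivation.leibniz_pow, ← Nat.cast_smul_eq_nsmul F, CharP.cast_eq_zero, zero_smul]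

/-- relations between differentials over `F^p` hold over `F^(p^e)`, `e ≥ 1` -/
theorem rel_lift {F : Type*} [Field F] {p : ℕ} [Fact p.Prime] [CharP F p] (e : ℕ) (he : 1 ≤ e)
    {ι : Type*} [Fintype ι] (a y : ι → F)
    (h : ∑ i, a i • KaehlerDifferential.D (kq F p 1) F (y i) = 0) :
    ∑ i, a i • KaehlerDifferential.D (kq F p e) F (y i) = 0 := by
  let L : F →ₗ[kq F p 1] KaehlerDifferential (kq F p e) F :=
    { toFun := KaehlerDifferential.D (kq F p e) F
      map_add' := fun x y => map_add _ x y
      map_smul' := fun c x => by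
        have h1 : c • x = (c : F) * x := rfl
        rw [h1, Derivation.leibniz, U3_zero e _ c.2, smul_zero, add_zero]
        exact (algebraMap_smul F c (KaehlerDifferential.D (kq F p e) F x)) }
  let D1 : Derivation (kq F p 1) F (KaehlerDifferential (kq F p e) F) :=
    Derivation.mk' L fun a b => Derivation.leibniz (KaehlerDifferential.D (kq F p e) F) a b
  have h1 := congrArg D1.liftKaehlerDifferential h
  rw [map_zero, map_sum] at h1
  rw [← h1]
  refine Finset.sum_congr rfl fun i _ => ?_
  rw [map_smul, Derivation.liftKaehlerDifferential_comp_D]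
  rfl

end Pool.Agent.Lib.MP_1bbd88_ag.U
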