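import Pool.Agent.Lib.MP_1bbd88_ag.U.UDefs
import Pool.Agent.Lib.MP_1bbd88_ag.S.D1

set_option autoImplicit false

namespace Pool.Agent.Lib.MP_1bbd88_ag.U

open Module TensorProduct IsLocalRing Pool.Agent.Lib.MP_1bbd88_ag.S Pool.Agent.Lib.MP_1bbd88_ag.T

section aux

variable {P F Ω T : Type*} [CommRing P] [Field F] [Field Ω] [Algebra F Ω]
    [CommRing T] [Algebra Ω T] (V : ValuationSubring F) (ρ : P →+* T)

theorem U8_mul {t : T} (h : D1_R (Ω := Ω) V ρ t) (a : P) : D1_R (Ω := Ω) V ρ (t * ρ a) := by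
  obtain ⟨s, μ, z, h1, rfl⟩ := h
  refine ⟨s, μ, fun l => z l * a, h1, ?_⟩
  rw [Finset.sum_mul]
  refine Finset.sum_congr rfl fun l _ => ?_
  rw [smul_mul_assoc, map_mul]

theorem U8_mul_smul {x : P} {m : F} (hm : m ∈ V.nonunits)
    (h : ρ x = algebraMap F Ω m • (1 : T)) (z : P) : D1_R (Ω := Ω) V ρ (ρ (x * z)) := by
  have e : ρ (x * z) = algebraMap F Ω m • ρ z := by
    rw [map_mul, h, smul_mul_assoc, one_mul]
  rw [e]
  exact D1_smul V ρ hm z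

/-- the quadratic expression lies in the span with small coefficients -/
theorem U8_abs (φ : P →+* F) (hV : ∀ g, φ g ∈ V) {n s : ℕ} (X : Fin n → P)
    (hX : ∀ i, φ (X i) ∈ V.nonunits) (g : Fin n → Fin n → P) (σ : Fin s → Fin n)
    (τ : Fin s → Fin s → F) (hτ : ∀ l m, τ l m ∈ V.nonunits) (D : Fin n → T)
    (hD : ∀ i, D i = ρ (X i) - algebraMap F Ω (φ (X i)) • (1 : T))
    (h0 : ∑ i, ∑ j, ρ (g i j) * (D i * D j) =
      ∑ l, ∑ m, algebraMap F Ω (τ l m) • (D (σ l) * D (σ m))) :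
    D1_R (Ω := Ω) V ρ (ρ (∑ i, ∑ j, g i j * (X i * X j))) := by
  have e1 : ρ (∑ i, ∑ j, g i j * (X i * X j)) =
      ∑ i, ∑ j, ρ (g i j) * (D i * D j) +
      ∑ i, ∑ j, (algebraMap F Ω (φ (X i)) • ρ (g i j * X j) +
        algebraMap F Ω (φ (X j)) • ρ (g i j * X i) +
        algebraMap F Ω (-(φ (X i) * φ (X j))) • ρ (g i j)) := by
    rw [map_sum, ← Finset.sum_add_distrib]
    refine Finset.sum_congr rfl fun i _ => ?_
    rw [map_sum, ← Finset.sum_add_distrib]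
    refine Finset.sum_congr rfl fun j _ => ?_
    rw [hD i, hD j]
    simp only [map_mul, map_neg, Algebra.smul_def]
    ring
  rw [e1, h0]
  refine D1_add V ρ (D1_sum V ρ _ _ fun l _ => D1_sum V ρ _ _ fun m _ => ?_)
    (D1_sum V ρ _ _ fun i _ => D1_sum V ρ _ _ fun j _ => ?_)
  · have e2 : algebraMap F Ω (τ l m) • (D (σ l) * D (σ m)) =
        algebraMap F Ω (τ l m) • ρ (X (σ l) * X (σ m)) +
        algebraMap F Ω (-(φ (X (σ m)) * τ l m)) • ρ (X (σ l)) +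
        algebraMap F Ω (-(φ (X (σ l)) * τ l m)) • ρ (X (σ m)) +
        algebraMap F Ω (φ (X (σ l)) * (φ (X (σ m)) * τ l m)) • ρ 1 := by
      rw [hD (σ l), hD (σ m)]
      simp only [map_mul, map_neg, map_one, Algebra.smul_def]
      ring
    rw [e2]
    refine D1_add V ρ (D1_add V ρ (D1_add V ρ (D1_smul V ρ (hτ l m) _) (D1_smul V ρ ?_ _))
      (D1_smul V ρ ?_ _)) (D1_smul V ρ ?_ _)
    · exact D1_nu_neg (D1_nu_mul (hV _) (hτ l m))
    · exact D1_nu_neg (D1_nu_mul (hV _) (hτ l m))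
    · exact D1_nu_mul (hV _) (D1_nu_mul (hV _) (hτ l m))
  · refine D1_add V ρ (D1_add V ρ (D1_smul V ρ (hX i) _) (D1_smul V ρ (hX j) _))
      (D1_smul V ρ ?_ _)
    exact D1_nu_neg (D1_nu_mul (hV _) (hX j))

theorem U8_gen0 (φ : P →+* F) (hV : ∀ g, φ g ∈ V) {n q : ℕ} (f0 : P)
    (hf0 : D1_R (Ω := Ω) V ρ (ρ f0)) (X : Fin n → P)
    (hX : ∀ k, φ (X k ^ q) ∈ V.nonunits)
    (hρX : ∀ k, ρ (X k ^ q) = algebraMap F Ω (φ (X k ^ q)) • (1 : T))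
    (hspan : Submodule.span Ω (Set.range ρ) = ⊤)
    {ι : Type*} [Fintype ι] (x : ι → P)
    (hfg : ∀ r : P, ∃ v : ι → F, (∀ i, v i ∈ V) ∧ ρ r = ∑ i, algebraMap F Ω (v i) • ρ (x i))
    {r : ℕ} (g : Fin r → P)
    (hg : ∀ y : P, ∃ (L : Fin r → P) (a : Fin 1 → P) (b : Fin n → P),
      (∀ i, ρ (L i) = algebraMap F Ω (φ (L i)) • (1 : T)) ∧
      ρ y = ρ (∑ i, L i * g i + ∑ j, f0 * a j + ∑ k, X k ^ q * b k)) :
    finrank Ω T ≤ r := by
  refine finrank_le_of_rel V ρ hspan x hfg g ?_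
  intro y
  obtain ⟨L, a, b, h1, h2⟩ := hg y
  have hall : D1_R (Ω := Ω) V ρ (∑ j, ρ (f0 * a j) + ∑ k, ρ (X k ^ q * b k)) := by
    refine D1_add V ρ (D1_sum V ρ _ _ fun j _ => ?_) (D1_sum V ρ _ _ fun k _ => ?_)
    · rw [map_mul]
      exact U8_mul V ρ hf0 _
    · exact U8_mul_smul V ρ (hX k) (hρX k) _
  obtain ⟨s, m, z, h3, h4⟩ := hall
  refine ⟨fun i => φ (L i), s, m, z, fun i => hV _, h3, ?_⟩
  rw [h2, map_add, map_add, map_sum, map_sum, map_sum, add_assoc, h4]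
  congr 1
  refine Finset.sum_congr rfl fun i _ => ?_
  rw [map_mul, h1 i, smul_mul_assoc, one_mul]

theorem U8_gen {P F Ω T : Type*} [CommRing P] [Field F] [Field Ω] [Algebra F Ω]
    [CommRing T] [Algebra Ω T] (J : Ideal T) (V : ValuationSubring F) (ρ : P →+* T ⧸ J)
    (φ : P →+* F) (hV : ∀ g, φ g ∈ V) {n q : ℕ} (f0 : P)
    (hf0 : D1_R (Ω := Ω) V ρ (ρ f0)) (X : Fin n → P)
    (hX : ∀ k, φ (X k ^ q) ∈ V.nonunits)
    (hρX : ∀ k, ρ (X k ^ q) = algebraMap F Ω (φ (X k ^ q)) • (1 : T ⧸ J))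
    (hspan : Submodule.span Ω (Set.range ρ) = ⊤)
    {ι : Type*} [Fintype ι] (x : ι → P)
    (hfg : ∀ r : P, ∃ v : ι → F, (∀ i, v i ∈ V) ∧ ρ r = ∑ i, algebraMap F Ω (v i) • ρ (x i))
    {r : ℕ} (g : Fin r → P)
    (hg : ∀ y : P, ∃ (L : Fin r → P) (a : Fin 1 → P) (b : Fin n → P),
      (∀ i, ρ (L i) = algebraMap F Ω (φ (L i)) • (1 : T ⧸ J)) ∧
      ρ y = ρ (∑ i, L i * g i + ∑ j, f0 * a j + ∑ k, X k ^ q * b k)) :
    finrank Ω (T ⧸ J) ≤ r :=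
  U8_gen0 V ρ φ hV f0 hf0 X hX hρX hspan x hfg g hg

theorem U8_absJ {P F Ω T : Type*} [CommRing P] [Field F] [Field Ω] [Algebra F Ω]
    [CommRing T] [Algebra Ω T] (J : Ideal T) (V : ValuationSubring F) (ρ : P →+* T ⧸ J)
    (φ : P →+* F) (hV : ∀ g, φ g ∈ V) {n s : ℕ} (X : Fin n → P)
    (hX : ∀ i, φ (X i) ∈ V.nonunits) (g : Fin n → Fin n → P) (σ : Fin s → Fin n)
    (τ : Fin s → Fin s → F) (hτ : ∀ l m, τ l m ∈ V.nonunits) (R : Fin n → Fin n → T) (D : Fin n → T)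
    (hD : ∀ i, Ideal.Quotient.mk J (D i) = ρ (X i) - algebraMap F Ω (φ (X i)) • (1 : T ⧸ J))
    (hR : ∀ i j, Ideal.Quotient.mk J (R i j) = ρ (g i j))
    (h0 : ∑ i, ∑ j, R i j * (D i * D j) -
      ∑ l, ∑ m, algebraMap F Ω (τ l m) • (D (σ l) * D (σ m)) ∈ J) :
    D1_R (Ω := Ω) V ρ (ρ (∑ i, ∑ j, g i j * (X i * X j))) := by
  refine U8_abs V ρ φ hV X hX g σ τ hτ (fun i => Ideal.Quotient.mk J (D i)) hD ?_
  have hs : ∀ (a : Ω) (x : T),
      Ideal.Quotient.mk J (a • x) = a • Ideal.Quotient.mk J x := fun a x => rfl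
  have h1 := Ideal.Quotient.eq_zero_iff_mem.2 h0
  rw [map_sub, sub_eq_zero, map_sum, map_sum] at h1
  have e1 : ∀ i : Fin n, Ideal.Quotient.mk J (∑ j, R i j * (D i * D j)) =
      ∑ j, ρ (g i j) * (Ideal.Quotient.mk J (D i) * Ideal.Quotient.mk J (D j)) := by
    intro i
    rw [map_sum]
    refine Finset.sum_congr rfl fun j _ => ?_
    rw [map_mul, map_mul, hR]
  have e2 : ∀ l : Fin s,
      Ideal.Quotient.mk J (∑ m, algebraMap F Ω (τ l m) • (D (σ l) * D (σ m))) =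
      ∑ m, algebraMap F Ω (τ l m) •
        (Ideal.Quotient.mk J (D (σ l)) * Ideal.Quotient.mk J (D (σ m))) := by
    intro l
    rw [map_sum]
    refine Finset.sum_congr rfl fun m _ => ?_
    rw [hs, map_mul]
  rw [Finset.sum_congr rfl fun i _ => e1 i, Finset.sum_congr rfl fun l _ => e2 l] at h1
  exact h1

end aux

variable {K : Type*} [Field K] {n p : ℕ} [Fact p.Prime] [CharP K p] [IsAlgClosed K]

omit [IsAlgClosed K] in
private theorem U8_mk_DD (e : ℕ) (Q : Ideal (MvPowerSeries (Fin n) K)) [Q.IsPrime]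
    {Ω : Type*} [Field Ω] [Algebra (FF Q) Ω] (J : Ideal (TT (FF Q) Ω p e))
    (f : MvPowerSeries (Fin n) K) :
    Ideal.Quotient.mk J (DD Ω p e (jj Q f)) =
      rr p e Q Ω J f - algebraMap (FF Q) Ω (jj Q f) • (1 : TT (FF Q) Ω p e ⧸ J) := by
  have h1 : algebraMap (FF Q) Ω (jj Q f) • (1 : TT (FF Q) Ω p e ⧸ J) =
      Ideal.Quotient.mk J ((algebraMap (FF Q) Ω (jj Q f)) ⊗ₜ[kq (FF Q) p e] (1 : FF Q)) := by
    have h2 : ((algebraMap (FF Q) Ω (jj Q f)) ⊗ₜ[kq (FF Q) p e] (1 : FF Q) : TT (FF Q) Ω p e) =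
        algebraMap (FF Q) Ω (jj Q f) • (1 : TT (FF Q) Ω p e) := by
      rw [Algebra.TensorProduct.one_def, TensorProduct.smul_tmul', smul_eq_mul, mul_one]
    rw [h2]
    rfl
  rw [h1, rr_apply, DD, map_sub]

/-- the semicontinuity step for quadratic expressions -/
theorem core_sq (e : ℕ) (Q : Ideal (MvPowerSeries (Fin n) K)) [Q.IsPrime]
    (Ω : Type*) [Field Ω] [Algebra (FF Q) Ω] (V : ValuationSubring (FF Q)) (hV : Dom Q V)
    (g : Matrix (Fin n) (Fin n) (MvPowerSeries (Fin n) K)) {s : ℕ} (σ : Fin s → Fin n)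
    (τ : Matrix (Fin s) (Fin s) (FF Q)) (hτ : ∀ l m, τ l m ∈ V.nonunits) :
    finrank Ω (TT (FF Q) Ω p e ⧸ Ideal.span
      {∑ i, ∑ j, ((1 : Ω) ⊗ₜ[kq (FF Q) p e] jj Q (g i j)) *
        (DD Ω p e (jj Q (MvPowerSeries.X i)) * DD Ω p e (jj Q (MvPowerSeries.X j))) -
       ∑ l, ∑ m, algebraMap (FF Q) Ω (τ l m) •
        (DD Ω p e (jj Q (MvPowerSeries.X (σ l))) * DD Ω p e (jj Q (MvPowerSeries.X (σ m))))}) ≤
      finrank K (MvPowerSeries (Fin n) K ⧸ (Q ⊔ Ideal.span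
        {∑ i, ∑ j, g i j * (MvPowerSeries.X i * MvPowerSeries.X j)} ⊔
        psI (Fin n) K (p ^ e))) := by
  obtain ⟨G, hG⟩ : ∃ G : TT (FF Q) Ω p e, G =
      ∑ i, ∑ j, ((1 : Ω) ⊗ₜ[kq (FF Q) p e] jj Q (g i j)) *
        (DD Ω p e (jj Q (MvPowerSeries.X i)) * DD Ω p e (jj Q (MvPowerSeries.X j))) -
       ∑ l, ∑ m, algebraMap (FF Q) Ω (τ l m) •
        (DD Ω p e (jj Q (MvPowerSeries.X (σ l))) * DD Ω p e (jj Q (MvPowerSeries.X (σ m)))) :=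
    ⟨_, rfl⟩
  rw [← hG]
  obtain ⟨f0, hf0⟩ : ∃ f0 : MvPowerSeries (Fin n) K, f0 =
      ∑ i, ∑ j, g i j * (MvPowerSeries.X i * MvPowerSeries.X j) := ⟨_, rfl⟩
  rw [← hf0]
  have hr : Set.range (fun _ : Fin 1 => f0) = {f0} := Set.range_const
  have hgen := exists_generators (p ^ e) Q (fun _ : Fin 1 => f0)
  rw [hr] at hgen
  obtain ⟨w, hw⟩ := hgen
  have hGJ : G ∈ Ideal.span {G} := Ideal.subset_span rfl
  have hρQ : ∀ r ∈ Q, rr p e Q Ω (Ideal.span {G}) r = 0 := by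
    intro r hr
    rw [rr_apply, (jj_ker Q r).mpr hr, tmul_zero, map_zero]
  have hXnu : ∀ i : Fin n, jj Q (MvPowerSeries.X i) ∈ V.nonunits := fun i =>
    hV.2 _ (MvPowerSeries.constantCoeff_X i)
  have hf1 : D1_R (Ω := Ω) V (rr p e Q Ω (Ideal.span {G})) (rr p e Q Ω (Ideal.span {G}) f0) := by
    rw [hf0]
    refine U8_absJ (Ideal.span {G}) V (rr p e Q Ω (Ideal.span {G})) (jj Q) hV.1
      (fun i => MvPowerSeries.X i) hXnu g σ τ hτ
      (fun i j => (1 : Ω) ⊗ₜ[kq (FF Q) p e] jj Q (g i j))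
      (fun i => DD Ω p e (jj Q (MvPowerSeries.X i)))
      (fun i => U8_mk_DD e Q _ _) (fun i j => (rr_apply e Q (Ideal.span {G}) (g i j)).symm) ?_
    rw [← hG]
    exact hGJ
  refine U8_gen (Ideal.span {G}) V (rr p e Q Ω (Ideal.span {G})) (jj Q) hV.1 (q := p ^ e) f0 hf1
    (fun i => MvPowerSeries.X i) ?_ (fun k => rr_pow e Q _ _) (rr_span e Q _)
    (fun β : Fin n → Fin (p ^ e) => ∏ i, MvPowerSeries.X i ^ (β i : ℕ)) (rr_fg e Q _ V hV.1) w ?_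
  · intro k
    refine hV.2 _ ?_
    rw [map_pow, MvPowerSeries.constantCoeff_X,
      zero_pow (pow_ne_zero _ (Fact.out : p.Prime).ne_zero)]
  · intro y
    obtain ⟨l, a, b, hl⟩ := hw y
    refine ⟨fun i => MvPowerSeries.C (l i), a, b, fun i => rr_C e Q _ _, ?_⟩
    have h7 := hρQ _ hl
    rwa [map_sub, sub_eq_zero] at h7

end Pool.Agent.Lib.MP_1bbd88_ag.U
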