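import Pool.Agent.Lib.MP_1bbd88_ag.U.UDefs

set_option autoImplicit false

namespace Pool.Agent.Lib.MP_1bbd88_ag.U

open Module TensorProduct IsLocalRing Pool.Agent.Lib.MP_1bbd88_ag.S Pool.Agent.Lib.MP_1bbd88_ag.T

/-- a kernel vector modulo the maximal ideal, with one coordinate equal to `1` -/
theorem U9_kernel {A : Type*} [CommRing A] [IsLocalRing A] {s : ℕ} (M : Matrix (Fin s) (Fin s) A)
    (hd : M.det ∈ maximalIdeal A) : ∃ (v : Fin s → A) (i₀ : Fin s), v i₀ = 1 ∧
      ∀ l, (M.mulVec v) l ∈ maximalIdeal A := by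
  have h0 : (M.map (residue A)).det = 0 := by
    have e : (M.map (residue A)).det = residue A M.det := by
      rw [RingHom.map_det]
      rfl
    rw [e, residue_eq_zero_iff]
    exact hd
  obtain ⟨b, hb, hMb⟩ := Matrix.exists_mulVec_eq_zero_iff.2 h0
  obtain ⟨i₀, hi₀⟩ : ∃ i, b i ≠ 0 := by
    by_contra hcon
    push Not at hcon
    exact hb (funext hcon)
  have hsurj : ∀ i, ∃ u : A, residue A u = (b i₀)⁻¹ * b i := fun i => residue_surjective _
  choose u hu using hsurj
  refine ⟨fun i => if i = i₀ then 1 else u i, i₀, if_pos rfl, fun l => ?_⟩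
  have hres : ∀ i, residue A (if i = i₀ then 1 else u i) = (b i₀)⁻¹ * b i := by
    intro i
    by_cases h : i = i₀
    · rw [if_pos h, h, map_one, inv_mul_cancel₀ hi₀]
    · rw [if_neg h, hu]
  rw [← residue_eq_zero_iff]
  have hl := congrFun hMb l
  simp only [Matrix.mulVec, dotProduct, Matrix.map_apply, Pi.zero_apply] at hl
  simp only [Matrix.mulVec, dotProduct, map_sum, map_mul, hres]
  have e : ∀ x, residue A (M l x) * ((b i₀)⁻¹ * b x) = (b i₀)⁻¹ * (residue A (M l x) * b x) := fun x => by ring
  simp only [e]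
  rw [← Finset.mul_sum, hl, mul_zero]

/-- a symmetric matrix with non-unit determinant can be made singular -/
theorem exists_perturb {F : Type*} [Field F] (V : ValuationSubring F) {s : ℕ}
    (S : Matrix (Fin s) (Fin s) F) (hs : S.IsSymm) (hS : ∀ l m, S l m ∈ V)
    (hd : S.det ∈ V.nonunits) : ∃ τ : Matrix (Fin s) (Fin s) F, τ.IsSymm ∧
      (∀ l m, τ l m ∈ V.nonunits) ∧ (S - τ).det = 0 := by
  let M : Matrix (Fin s) (Fin s) V := Matrix.of fun l m => ⟨S l m, hS l m⟩
  have hMS : M.map V.subtype = S := by
    ext l m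
    rfl
  have hMsymm : ∀ l m, M l m = M m l := by
    intro l m
    apply Subtype.ext
    exact (hs.apply m l)
  have hdet : (V.subtype M.det) = S.det := by
    rw [RingHom.map_det]
    exact congrArg Matrix.det hMS
  have hM : M.det ∈ maximalIdeal V := by
    rw [← ValuationSubring.coe_mem_nonunits_iff]
    have : ((M.det : V) : F) = S.det := hdet
    rw [this]
    exact hd
  obtain ⟨v, i₀, hv, hw⟩ := U9_kernel M hM
  let w : Fin s → V := M.mulVec v
  let e : Fin s → V := fun i => if i = i₀ then 1 else 0
  let c : V := ∑ i, w i * v i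
  let T : Matrix (Fin s) (Fin s) V := Matrix.of fun l m => w l * e m + e l * w m - c * e l * e m
  have hcm : c ∈ maximalIdeal V := Ideal.sum_mem _ fun i _ => Ideal.mul_mem_right _ _ (hw i)
  have hev : ∑ m, e m * v m = 1 := by
    have : ∀ m, e m * v m = if m = i₀ then v m else 0 := by
      intro m
      show (if m = i₀ then 1 else 0) * v m = _
      split_ifs <;> simp
    simp only [this, Finset.sum_ite_eq', Finset.mem_univ, if_true]
    exact hv
  have hTv : ∀ l, ∑ m, T l m * v m = w l := by
    intro l
    have h1 : ∀ m, T l m * v m = w l * (e m * v m) + e l * (w m * v m) - c * e l * (e m * v m) := by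
      intro m
      show (w l * e m + e l * w m - c * e l * e m) * v m = _
      ring
    simp only [h1]
    rw [Finset.sum_sub_distrib, Finset.sum_add_distrib, ← Finset.mul_sum, ← Finset.mul_sum, ← Finset.mul_sum, hev]
    show w l * 1 + e l * c - c * e l * 1 = w l
    ring
  have hzero : (M - T).det = 0 := by
    refine Matrix.exists_mulVec_eq_zero_iff.1 ⟨v, ?_, ?_⟩
    · intro h
      have := congrFun h i₀
      rw [hv] at this
      exact one_ne_zero this
    · ext l
      rw [Matrix.sub_mulVec]
      show (((M.mulVec v) l - (T.mulVec v) l : V) : F) = ((0 : V) : F)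
      have h2 : (T.mulVec v) l = w l := hTv l
      rw [h2]
      show (((w l - w l : V)) : F) = ((0 : V) : F)
      rw [sub_self]
  refine ⟨T.map V.subtype, ?_, ?_, ?_⟩
  · ext l m
    rw [Matrix.transpose_apply, Matrix.map_apply, Matrix.map_apply]
    congr 1
    show w m * e l + e m * w l - c * e m * e l = w l * e m + e l * w m - c * e l * e m
    ring
  · intro l m
    rw [Matrix.map_apply]
    show ((T l m : V) : F) ∈ V.nonunits
    rw [ValuationSubring.coe_mem_nonunits_iff]
    show w l * e m + e l * w m - c * e l * e m ∈ maximalIdeal V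
    refine Ideal.sub_mem _ (Ideal.add_mem _ (Ideal.mul_mem_right _ _ (hw l)) (Ideal.mul_mem_left _ _ (hw m))) ?_
    exact Ideal.mul_mem_right _ _ (Ideal.mul_mem_right _ _ hcm)
  · have h3 : S - T.map V.subtype = (M - T).map V.subtype := by
      ext l m
      rfl
    rw [h3]
    have h4 : ((M - T).map V.subtype).det = V.subtype (M - T).det := by
      rw [RingHom.map_det]
      rfl
    rw [h4, hzero, map_zero]

end Pool.Agent.Lib.MP_1bbd88_ag.U
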