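import Pool.Agent.Lib.MP_1bbd88_ag.U.U1
import Pool.Agent.Lib.MP_1bbd88_ag.U.U3
import Pool.Agent.Lib.MP_1bbd88_ag.U.U8
import Pool.Agent.Lib.MP_1bbd88_ag.U.U9
import Pool.Agent.Lib.MP_1bbd88_ag.U.U10
import Pool.Agent.Lib.MP_1bbd88_ag.U.U12
import Pool.Agent.Lib.MP_1bbd88_ag.T.H6
import Pool.Agent.Lib.MP_1bbd88_ag.S.B2
import Pool.Agent.Lib.MP_1bbd88_ag.S.B3
import Pool.Agent.Lib.MP_1bbd88_ag.S.A3
import Pool.Agent.Lib.MP_1bbd88_ag.S.C2

set_option autoImplicit false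

namespace Pool.Agent.Lib.MP_1bbd88_ag.U

open Module TensorProduct IsLocalRing Pool.Agent.Lib.MP_1bbd88_ag.S Pool.Agent.Lib.MP_1bbd88_ag.T

variable {K : Type*} [Field K] [IsAlgClosed K] {n p : ℕ} [Fact p.Prime] [CharP K p]

theorem U11_main (hp : p ≠ 2) (d e : ℕ) (he : 1 ≤ e)
    (Q : Ideal (MvPowerSeries (Fin n) K)) [Q.IsPrime]
    (V : ValuationSubring (FF Q)) (hV : Dom Q V)
    (g : Matrix (Fin n) (Fin n) (MvPowerSeries (Fin n) K)) (hg : g.IsSymm)
    (σ : Fin (d + 1) → Fin n) (hli : LinearIndependent (FF Q) fun l => dX p 1 Q (σ l))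
    (a : Matrix (Fin n) (Fin (d + 1)) (FF Q)) (haV : ∀ i l, a i l ∈ V)
    (ha : ∀ i, dX p 1 Q i = ∑ l, a i l • dX p 1 Q (σ l))
    (hdet : (gram (g.map (jj Q)) a).det ∈ V.nonunits)
    (Ω : Type*) [Field Ω] [Algebra (FF Q) Ω] [IsAlgClosed Ω] :
    D3 (ph K d (p ^ e)) (p ^ e) ≤ finrank K (MvPowerSeries (Fin n) K ⧸ (Q ⊔ Ideal.span
        {∑ i, ∑ j, g i j * (MvPowerSeries.X i * MvPowerSeries.X j)} ⊔
        psI (Fin n) K (p ^ e))) := by
  classical
  -- the p-basis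
  let z : Fin (d + 1) → FF Q := fun l => jj Q (MvPowerSeries.X (σ l))
  have hsp : Submodule.span (FF Q) (Set.range fun l => KaehlerDifferential.D (kq (FF Q) p 1) (FF Q) (z l)) = ⊤ := by
    rw [eq_top_iff, ← span_dX (p := p) 1 Q, Submodule.span_le]
    rintro _ ⟨i, rfl⟩
    rw [SetLike.mem_coe, ha i]
    refine Submodule.sum_mem _ fun l _ => Submodule.smul_mem _ _ (Submodule.subset_span ⟨l, rfl⟩)
  obtain ⟨hz, hfin⟩ := pbasis_of_basis (p := p) z hli hsp
  have hz' := adjoin_kq (FF Q) p z hz e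
  have hm' : finrank (kq (FF Q) p e) (FF Q) = (p ^ e) ^ (d + 1) := by
    rw [finrank_kq, hfin, ← pow_mul, ← pow_mul, Nat.mul_comm]
  obtain ⟨ε, hε⟩ := exists_trunc (Ω := Ω) z e hz' hm'
  have hdd := dd_eq (Ω := Ω) z e hz'
  -- perturbation
  have hS : ∀ l m, gram (g.map (jj Q)) a l m ∈ V := by
    intro l m
    rw [gram, Matrix.mul_apply]
    refine sum_mem fun j _ => mul_mem ?_ (haV j m)
    rw [Matrix.mul_apply]
    exact sum_mem fun i _ => mul_mem (haV i l) (hV.1 _)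
  have hsym : (gram (g.map (jj Q)) a).IsSymm := by
    have h1 : (g.map (jj Q)).transpose = g.map (jj Q) := by
      rw [← Matrix.transpose_map, hg.eq]
    rw [Matrix.IsSymm, gram, Matrix.transpose_mul, Matrix.transpose_mul, Matrix.transpose_transpose,
      h1, Matrix.mul_assoc]
  obtain ⟨τ, hτs, hτ, hτd⟩ := exists_perturb V _ hsym hS hdet
  -- relations modulo dd ^ 2
  have hrel : ∀ i, DD Ω p e (jj Q (MvPowerSeries.X i)) -
      ∑ l, algebraMap (FF Q) Ω (a i l) • DD Ω p e (z l) ∈ dd (FF Q) Ω p e ^ 2 := by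
    intro i
    have h1 := rel_lift (F := FF Q) (p := p) e he (ι := Option (Fin (d + 1)))
      (fun o => o.elim (-1) (a i)) (fun o => o.elim (jj Q (MvPowerSeries.X i)) z) (by
        rw [Fintype.sum_option]
        change (-1 : FF Q) • dX p 1 Q i + ∑ l, a i l • dX p 1 Q (σ l) = 0
        rw [← ha i, neg_one_smul, neg_add_cancel])
    rw [Fintype.sum_option] at h1
    have h2 : ∑ l, a i l • KaehlerDifferential.D (kq (FF Q) p e) (FF Q) (z l) =
        KaehlerDifferential.D (kq (FF Q) p e) (FF Q) (jj Q (MvPowerSeries.X i)) := by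
      have h3 : (-1 : FF Q) • KaehlerDifferential.D (kq (FF Q) p e) (FF Q) (jj Q (MvPowerSeries.X i)) +
        ∑ l, a i l • KaehlerDifferential.D (kq (FF Q) p e) (FF Q) (z l) = 0 := h1
      rw [neg_one_smul, neg_add_eq_zero] at h3
      exact h3.symm
    have h4 := mem_dd_sq (Ω := Ω) e (ι := Unit) (κ := Fin (d + 1)) (fun _ => (1 : FF Q))
      (fun _ => jj Q (MvPowerSeries.X i)) (a i) z (by
        rw [h2]
        simp)
    simpa using h4
  -- the quadratic part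
  set G : TT (FF Q) Ω p e := ∑ i, ∑ j, ((1 : Ω) ⊗ₜ[kq (FF Q) p e] jj Q (g i j)) *
        (DD Ω p e (jj Q (MvPowerSeries.X i)) * DD Ω p e (jj Q (MvPowerSeries.X j))) -
       ∑ l, ∑ m, algebraMap (FF Q) Ω (τ l m) •
        (DD Ω p e (jj Q (MvPowerSeries.X (σ l))) * DD Ω p e (jj Q (MvPowerSeries.X (σ m)))) with hG
  have hQ : HasQ (ε.symm G) ((gram (g.map (jj Q)) a - τ).map (algebraMap (FF Q) Ω)) :=
    hasQ_symm z ε hε hdd (fun i => jj Q (MvPowerSeries.X i)) a hrel (g.map (jj Q)) τ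
  have hch : CharP Ω p := charP_of_injective_algebraMap (algebraMap (FF Q) Ω).injective p
  have hsym2 : ((gram (g.map (jj Q)) a - τ).map (algebraMap (FF Q) Ω)).IsSymm := by
    rw [Matrix.IsSymm, ← Matrix.transpose_map, Matrix.transpose_sub, hsym.eq, hτs.eq]
  have hdet2 : ((gram (g.map (jj Q)) a - τ).map (algebraMap (FF Q) Ω)).det = 0 := by
    have h1 : ((gram (g.map (jj Q)) a - τ).map (algebraMap (FF Q) Ω)).det =
        algebraMap (FF Q) Ω (gram (g.map (jj Q)) a - τ).det :=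
      ((algebraMap (FF Q) Ω).map_det _).symm
    rw [h1, hτd, map_zero]
  have key := D3_le_of_degenerate hp d e (ε.symm G) _ hsym2 hQ hdet2
  let _ : Algebra K Ω := ((algebraMap (FF Q) Ω).comp ((jj Q).comp
    (MvPowerSeries.C : K →+* MvPowerSeries (Fin n) K))).toAlgebra
  have hph : ph Ω d (p ^ e) = ph K d (p ^ e) := funext fun t => ph_ext K Ω d (p ^ e) t
  rw [hph] at key
  have hcore := core_sq (p := p) e Q Ω V hV g σ τ hτ
  rw [← hG] at hcore
  refine key.trans (le_trans (le_of_eq ?_) hcore)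
  have hmap : Ideal.span {G} = (Ideal.span {ε.symm G}).map
        (ε : W (d + 1) (p ^ e) Ω →+* TT (FF Q) Ω p e) := by
    rw [Ideal.map_span, Set.image_singleton]
    have e1 : (ε : W (d + 1) (p ^ e) Ω →+* TT (FF Q) Ω p e) (ε.symm G) = G :=
      ε.apply_symm_apply _
    rw [e1]
  exact (Ideal.quotientEquivAlg _ _ ε hmap).toLinearEquiv.finrank_eq

/-- the case of a degenerate Gram matrix -/
theorem D3_le_of_gram (hp : p ≠ 2) (d e : ℕ) (he : 1 ≤ e)
    (Q : Ideal (MvPowerSeries (Fin n) K)) [Q.IsPrime]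
    (V : ValuationSubring (FF Q)) (hV : Dom Q V)
    (g : Matrix (Fin n) (Fin n) (MvPowerSeries (Fin n) K)) (hg : g.IsSymm)
    (σ : Fin (d + 1) → Fin n) (hli : LinearIndependent (FF Q) fun l => dX p 1 Q (σ l))
    (a : Matrix (Fin n) (Fin (d + 1)) (FF Q)) (haV : ∀ i l, a i l ∈ V)
    (ha : ∀ i, dX p 1 Q i = ∑ l, a i l • dX p 1 Q (σ l))
    (hdet : (gram (g.map (jj Q)) a).det ∈ V.nonunits) :
    D3 (ph K d (p ^ e)) (p ^ e) ≤ finrank K (MvPowerSeries (Fin n) K ⧸ (Q ⊔ Ideal.span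
        {∑ i, ∑ j, g i j * (MvPowerSeries.X i * MvPowerSeries.X j)} ⊔
        psI (Fin n) K (p ^ e))) :=
  U11_main hp d e he Q V hV g hg σ hli a haV ha hdet (AlgebraicClosure (FF Q))

end Pool.Agent.Lib.MP_1bbd88_ag.U
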