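import Pool.Agent.Lib.MP_1bbd88_ag.U.U12
import Pool.Agent.Lib.MP_1bbd88_ag.S.X3
import Pool.Agent.Lib.MP_1bbd88_ag.S.R2
import Pool.Agent.Lib.MP_1bbd88_ag.S.R3
import Pool.Agent.Lib.MP_1bbd88_ag.T.K3

set_option autoImplicit false

namespace Pool.Agent.Lib.MP_1bbd88_ag.U

open Module TensorProduct IsLocalRing Pool.Agent.Lib.MP_1bbd88_ag.S Pool.Agent.Lib.MP_1bbd88_ag.T

variable {K : Type*} [Field K] [IsAlgClosed K] {n p : ℕ} [Fact p.Prime] [CharP K p]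

private theorem U13_cc {K : Type*} [Field K] {n : ℕ} {g : MvPowerSeries (Fin n) K}
    (hg : g ∈ maximalIdeal (MvPowerSeries (Fin n) K)) : MvPowerSeries.constantCoeff g = 0 := by
  rw [mem_maximalIdeal, mem_nonunits_iff, MvPowerSeries.isUnit_iff_constantCoeff] at hg
  by_contra h
  exact hg (isUnit_iff_ne_zero.2 h)

/-- the lower bound in `T` -/
theorem U13_lower (hp : p ≠ 2) (d e : ℕ) (Q : Ideal (MvPowerSeries (Fin n) K)) [Q.IsPrime]
    (m : ℕ) (hm : finrank (kq (FF Q) p 1) (FF Q) = p ^ m) (hdm : d + 2 ≤ m) (Ω : Type*)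
    [Field Ω] [Algebra (FF Q) Ω] [IsAlgClosed Ω] (G : TT (FF Q) Ω p e)
    (h0 : G ∈ dd (FF Q) Ω p e ^ 2) :
    D3 (ph K d (p ^ e)) (p ^ e) ≤ finrank Ω (TT (FF Q) Ω p e ⧸ Ideal.span {G}) := by
  classical
  set F := FF Q with hF
  have hp0 : 0 < p := (Fact.out : p.Prime).pos
  have hp1 : 1 < p := (Fact.out : p.Prime).one_lt
  have hfin : FiniteDimensional (kq F p 1) F :=
    Module.finite_of_finrank_pos (by rw [hm]; exact pow_pos hp0 _)
  obtain ⟨m', z, hm1, hz⟩ := exists_pbasis F p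
  have hmm : m' = m := Nat.pow_right_injective hp1 (hm1.symm.trans hm)
  subst hmm
  obtain ⟨s, rfl⟩ : ∃ s, m' = d + 1 + s := ⟨m' - (d + 1), by omega⟩
  have hs : 0 < s := by omega
  have hz' := adjoin_kq F p z hz e
  have hm' : finrank (kq F p e) F = (p ^ e) ^ (d + 1 + s) := by
    rw [finrank_kq, hm, ← pow_mul, ← pow_mul, Nat.mul_comm]
  obtain ⟨ε, hε⟩ := exists_trunc (Ω := Ω) z e hz' hm'
  have hdd : dd F Ω p e = (wm (d + 1 + s) (p ^ e) Ω).map (ε : W (d + 1 + s) (p ^ e) Ω →+* TT F Ω p e) := by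
    rw [dd_eq z e hz', wm, Ideal.map_span, ← Set.range_comp]
    congr 1
    congr 1
    funext i
    exact (hε i).symm
  have hback : ∀ (I : Ideal (W (d + 1 + s) (p ^ e) Ω)) (t : TT F Ω p e),
      t ∈ I.map (ε : W (d + 1 + s) (p ^ e) Ω →+* TT F Ω p e) → ε.symm t ∈ I := by
    intro I t ht
    obtain ⟨w, hw, hwt⟩ := (Ideal.mem_map_of_equiv (ε : W (d + 1 + s) (p ^ e) Ω ≃+* TT F Ω p e) t).1 ht
    have : ε.symm t = w := by
      rw [← hwt]
      exact ε.symm_apply_apply w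
    rw [this]
    exact hw
  have hch : CharP Ω p := charP_of_injective_algebraMap (algebraMap F Ω).injective p
  have hG0 : ε.symm G ∈ wm (d + 1 + s) (p ^ e) Ω ^ 2 := by
    refine hback _ _ ?_
    rw [Ideal.map_pow, ← hdd]
    exact h0
  have key := D3_le_of_codim hp d s e hs (ε.symm G) hG0 (fun _ => 0) (fun _ => Ideal.zero_mem _)
  let _ : Algebra K Ω := ((algebraMap F Ω).comp ((jj Q).comp
    (MvPowerSeries.C : K →+* MvPowerSeries (Fin n) K))).toAlgebra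
  have hph : ph Ω d (p ^ e) = ph K d (p ^ e) := funext fun t => ph_ext K Ω d (p ^ e) t
  rw [hph] at key
  refine key.trans (le_of_eq ?_)
  have hz0 : Ideal.span (Set.range fun _ : Fin s => (0 : W (d + 1 + s) (p ^ e) Ω)) = ⊥ := by
    rw [Ideal.span_eq_bot]
    rintro _ ⟨i, rfl⟩
    rfl
  have hmap : Ideal.span {G} =
      (Ideal.span {ε.symm G} ⊔ Ideal.span (Set.range fun _ : Fin s =>
        (0 : W (d + 1 + s) (p ^ e) Ω))).map
        (ε : W (d + 1 + s) (p ^ e) Ω →+* TT F Ω p e) := by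
    rw [hz0, sup_bot_eq, Ideal.map_span, Set.image_singleton]
    have e1 : (ε : W (d + 1 + s) (p ^ e) Ω →+* TT F Ω p e) (ε.symm G) = G :=
      ε.apply_symm_apply _
    rw [e1]
  exact (Ideal.quotientEquivAlg _ _ ε hmap).toLinearEquiv.finrank_eq

theorem U13_main (hp : p ≠ 2) (d e : ℕ) (Q : Ideal (MvPowerSeries (Fin n) K)) [Q.IsPrime]
    (f : MvPowerSeries (Fin n) K) (hf : f ∈ maximalIdeal (MvPowerSeries (Fin n) K) ^ 2) (m : ℕ)
    (hm : finrank (kq (FF Q) p 1) (FF Q) = p ^ m) (hdm : d + 2 ≤ m)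
    (Ω : Type*) [Field Ω] [Algebra (FF Q) Ω] [IsAlgClosed Ω] :
    D3 (ph K d (p ^ e)) (p ^ e) ≤ finrank K (MvPowerSeries (Fin n) K ⧸
      (Q ⊔ Ideal.span {f} ⊔ psI (Fin n) K (p ^ e))) := by
  obtain ⟨V, hV, hVm⟩ := exists_dominating Q
  have hf0 : MvPowerSeries.constantCoeff f = 0 := U13_cc (Ideal.pow_le_self two_ne_zero hf)
  have hdeg := degenerate_of_sq Q V hV hVm (fun _ : Fin 1 => f) 0 (Ideal.mem_sup_left hf)
  obtain ⟨α, j0, μ, hα, hαV, hμ, hrel⟩ :=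
    kaehler_relation (kq (FF Q) p e) V one_pos (fun i => jj Q (MvPowerSeries.X i))
      (fun _ : Fin 1 => Ideal.Quotient.mk Q f) (X3_span (p := p) e Q V hV) hdeg
  set G : TT (FF Q) Ω p e := ∑ j : Fin 1, algebraMap (FF Q) Ω (α j) • DD Ω p e (jj Q f) -
      ∑ i, algebraMap (FF Q) Ω (μ i) • DD Ω p e (jj Q (MvPowerSeries.X i)) with hG
  have h0 : G ∈ dd (FF Q) Ω p e ^ 2 := by
    rw [hG]
    exact mem_dd_sq e α (fun _ => jj Q f) μ (fun i => jj Q (MvPowerSeries.X i)) hrel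
  have h1 := U13_lower (K := K) hp d e Q m hm hdm Ω G h0
  have h2 := core e Q Ω V hV hVm (fun _ : Fin 1 => f) (fun _ => hf0) α j0 hα hαV μ hμ
    (fun _ => G) hG (fun j hj => absurd (Subsingleton.elim j j0) hj)
  rw [Set.range_const, Set.range_const] at h2
  exact h1.trans h2

/-- the case where the degree of imperfection is larger than `d + 1` -/
theorem D3_le_of_large (hp : p ≠ 2) (d e : ℕ) (Q : Ideal (MvPowerSeries (Fin n) K)) [Q.IsPrime]
    (f : MvPowerSeries (Fin n) K) (hf : f ∈ maximalIdeal (MvPowerSeries (Fin n) K) ^ 2) (m : ℕ)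
    (hm : finrank (kq (FF Q) p 1) (FF Q) = p ^ m) (hdm : d + 2 ≤ m) :
    D3 (ph K d (p ^ e)) (p ^ e) ≤ finrank K (MvPowerSeries (Fin n) K ⧸
      (Q ⊔ Ideal.span {f} ⊔ psI (Fin n) K (p ^ e))) :=
  U13_main hp d e Q f hf m hm hdm (AlgebraicClosure (FF Q))

end Pool.Agent.Lib.MP_1bbd88_ag.U
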