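import Pool.Agent.Lib.MP_1bbd88_ag.U.UDefs

set_option autoImplicit false

namespace Pool.Agent.Lib.MP_1bbd88_ag.U

open Module TensorProduct IsLocalRing Pool.Agent.Lib.MP_1bbd88_ag.S Pool.Agent.Lib.MP_1bbd88_ag.T

lemma U6b_inv {F : Type*} [Field F] {p : ℕ} [Fact p.Prime] [CharP F p] (i : ℕ) (hi : i < p) :
    ∃ w : ℕ, (w : F) * (i.factorial : F) = 1 := by
  have hp : p.Prime := Fact.out
  have h1 : Nat.Coprime i.factorial p := by
    rw [Nat.coprime_comm, hp.coprime_iff_not_dvd, hp.dvd_factorial]
    omega
  obtain ⟨m, -, hm⟩ := Nat.exists_mul_mod_eq_one_of_coprime h1 hp.one_lt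
  refine ⟨m, ?_⟩
  have h2 : ((i.factorial * m : ℕ) : F) = ((1 : ℕ) : F) := by
    rw [CharP.cast_eq_iff_mod_eq F p, hm, Nat.mod_eq_of_lt hp.one_lt]
  rw [← Nat.cast_mul, mul_comm, h2, Nat.cast_one]

lemma U6b_it_mul {k F : Type*} [Field k] [Field F] [Algebra k F] (D : Derivation k F F) (c x : F)
    (hc : D c = 0) (i : ℕ) : D^[i] (c * x) = c * D^[i] x := by
  induction i with
  | zero => rfl
  | succ i ih =>
    rw [Function.iterate_succ_apply', ih, Function.iterate_succ_apply', Derivation.leibniz, hc]
    simp

lemma U6b_it_pow {k F : Type*} [Field k] [Field F] [Algebra k F] (D : Derivation k F F) (z : F)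
    (hz : D z = 1) (i j : ℕ) :
    z ^ i * D^[i] (z ^ j) = (j.descFactorial i : F) * z ^ j := by
  have h : D^[i] (z ^ j) = (j.descFactorial i : F) * z ^ (j - i) := by
    induction i with
    | zero => simp
    | succ i ih =>
      rw [Function.iterate_succ_apply', ih, Derivation.leibniz, Derivation.leibniz_pow, hz,
        Derivation.map_natCast, Nat.descFactorial_succ]
      simp only [smul_eq_mul, nsmul_eq_mul, mul_zero, add_zero, mul_one]
      rw [Nat.sub_sub]
      push_cast
      ring
  rw [h]
  rcases le_or_gt i j with h1 | h1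
  · rw [mul_left_comm, ← pow_add, Nat.add_sub_cancel' h1]
  · rw [Nat.descFactorial_of_lt h1]
    simp

/-- the projection -/
noncomputable def U6b_E {k F : Type*} [Field k] [Field F] [Algebra k F] (p : ℕ) (w : ℕ → ℕ)
    (D : Derivation k F F) (z : F) (r : F) : F :=
  ∑ i ∈ Finset.range p, (w i : F) * ((-z) ^ i * D^[i] r)

lemma U6b_it_add {k F : Type*} [Field k] [Field F] [Algebra k F] (D : Derivation k F F) (x y : F)
    (i : ℕ) : D^[i] (x + y) = D^[i] x + D^[i] y := by
  induction i with
  | zero => rfl
  | succ i ih =>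
    rw [Function.iterate_succ_apply', ih, Function.iterate_succ_apply',
      Function.iterate_succ_apply', map_add]

lemma U6b_E_add {k F : Type*} [Field k] [Field F] [Algebra k F] (p : ℕ) (w : ℕ → ℕ)
    (D : Derivation k F F) (z : F) (x y : F) :
    U6b_E p w D z (x + y) = U6b_E p w D z x + U6b_E p w D z y := by
  unfold U6b_E
  rw [← Finset.sum_add_distrib]
  refine Finset.sum_congr rfl fun i _ => ?_
  rw [U6b_it_add]
  ring

lemma U6b_E_mul {k F : Type*} [Field k] [Field F] [Algebra k F] (p : ℕ) (w : ℕ → ℕ)
    (D : Derivation k F F) (z : F) (c x : F) (hc : D c = 0) :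
    U6b_E p w D z (c * x) = c * U6b_E p w D z x := by
  unfold U6b_E
  rw [Finset.mul_sum]
  refine Finset.sum_congr rfl fun i _ => ?_
  rw [U6b_it_mul D c x hc]
  ring

lemma U6b_E_pow {k F : Type*} [Field k] [Field F] [Algebra k F] (p : ℕ) [hp : Fact p.Prime]
    [CharP F p] (w : ℕ → ℕ) (hw : ∀ i < p, (w i : F) * (i.factorial : F) = 1)
    (D : Derivation k F F) (z : F) (hz : D z = 1) (j : ℕ) :
    (¬ p ∣ j → U6b_E p w D z (z ^ j) = 0) ∧ (∃ t : ℤ, U6b_E p w D z (z ^ j) = t * z ^ j) := by
  have h1 : U6b_E p w D z (z ^ j) =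
      ((∑ i ∈ Finset.range p, ((-1) ^ i * (j.choose i : ℤ)) : ℤ) : F) * z ^ j := by
    unfold U6b_E
    rw [Int.cast_sum, Finset.sum_mul]
    refine Finset.sum_congr rfl fun i hi => ?_
    rw [neg_pow, mul_assoc ((-1) ^ i), U6b_it_pow D z hz i j, Nat.descFactorial_eq_factorial_mul_choose]
    have h2 := hw i (Finset.mem_range.mp hi)
    push_cast
    linear_combination ((-1) ^ i * (j.choose i : F) * z ^ j) * h2
  constructor
  · intro hj
    rw [h1]
    obtain ⟨q, rfl⟩ : ∃ q, p = q + 1 := ⟨p - 1, (Nat.succ_pred_eq_of_pos hp.out.pos).symm⟩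
    obtain ⟨j', rfl⟩ : ∃ j', j = j' + 1 := by
      refine ⟨j - 1, ?_⟩
      have : j ≠ 0 := by
        rintro rfl
        exact hj (dvd_zero _)
      omega
    rw [Int.alternating_sum_range_choose_eq_choose]
    have h3 : (q + 1) ∣ (j' + 1 - 1).choose q := by
      rw [Nat.add_sub_cancel]
      have h4 := Nat.add_one_mul_choose_eq j' q
      have h5 : (q + 1) ∣ (j' + 1) * j'.choose q := by
        rw [h4]
        exact Dvd.intro_left _ rfl
      exact (hp.out.dvd_mul.mp h5).resolve_left hj
    have h6 : (((j' + 1 - 1).choose q : ℕ) : F) = 0 := (CharP.cast_eq_zero_iff F (q + 1) _).mpr h3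
    push_cast
    simp only [Nat.add_sub_cancel] at h6 ⊢
    rw [h6]
    simp
  · exact ⟨_, h1⟩

/-- the constant term with respect to a `p`-basis -/
theorem const_term {F : Type*} [Field F] {p : ℕ} [Fact p.Prime] [CharP F p] {s : ℕ}
    (z : Fin s → F) (hz : Algebra.adjoin (kq F p 1) (Set.range z) = ⊤)
    (δ : Fin s → Derivation (kq F p 1) F F) (hδ : ∀ l m, δ l (z m) = if l = m then 1 else 0)
    (R : Subring F) (hR : ∀ l, ∀ r ∈ R, δ l r ∈ R) (hzR : ∀ l, z l ∈ R) (r : F) (hr : r ∈ R) :
    ∃ (c : F) (b : Fin s → F), (∀ l, b l ∈ R) ∧ c ^ p ∈ R ∧ r = c ^ p + ∑ l, b l * z l := by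
  classical
  have hp : p.Prime := Fact.out
  have hw0 : ∀ i : ℕ, ∃ w : ℕ, i < p → (w : F) * (i.factorial : F) = 1 := by
    intro i
    by_cases hi : i < p
    · obtain ⟨w, hw⟩ := U6b_inv (F := F) i hi
      exact ⟨w, fun _ => hw⟩
    · exact ⟨0, fun h => absurd h hi⟩
  choose w hw using hw0
  have hpk : ∀ x : F, x ^ p ∈ kq F p 1 := by
    intro x
    refine ⟨x, ?_⟩
    rw [iterateFrobenius_def, pow_one]
  -- main statement
  have key : ∀ S : Finset (Fin s), ∀ r ∈ R, r ∈ Algebra.adjoin (kq F p 1) (z '' (S : Set (Fin s))) →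
      ∃ (c : F) (b : Fin s → F), (∀ l, b l ∈ R) ∧ c ^ p ∈ R ∧ r = c ^ p + ∑ l, b l * z l := by
    intro S
    induction S using Finset.induction_on with
    | empty =>
      intro r hr hr'
      rw [Finset.coe_empty, Set.image_empty, Algebra.adjoin_empty, Algebra.mem_bot] at hr'
      obtain ⟨⟨y, c, hc⟩, rfl⟩ := hr'
      rw [iterateFrobenius_def, pow_one] at hc
      refine ⟨c, fun _ => 0, fun _ => zero_mem _, ?_, ?_⟩
      · rw [hc]
        exact hr
      · rw [hc]
        simp
        rfl
    | insert l S hl ih =>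
      intro r hr hr'
      -- elements of the adjoin of `S` are constants for `δ l`
      have hconst : ∀ x ∈ Algebra.adjoin (kq F p 1) (z '' (S : Set (Fin s))), δ l x = 0 := by
        intro x hx
        induction hx using Algebra.adjoin_induction with
        | mem x hx =>
          obtain ⟨m, hm, rfl⟩ := hx
          rw [hδ, if_neg]
          rintro rfl
          exact hl hm
        | algebraMap a => exact (δ l).map_algebraMap a
        | add x y _ _ h1 h2 => rw [map_add, h1, h2, add_zero]
        | mul x y _ _ h1 h2 => rw [Derivation.leibniz, h1, h2]; simp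
      have hEK : ∀ x ∈ Algebra.adjoin (kq F p 1) (z '' ((insert l S : Finset (Fin s)) : Set (Fin s))),
          U6b_E p w (δ l) (z l) x ∈ Algebra.adjoin (kq F p 1) (z '' (S : Set (Fin s))) := by
        intro x hx
        rw [Finset.coe_insert, Set.image_insert_eq, Set.insert_eq, Set.union_comm,
          Algebra.adjoin_union_eq_adjoin_adjoin, Subalgebra.mem_restrictScalars,
          Algebra.adjoin_singleton_eq_range_aeval] at hx
        obtain ⟨f, rfl⟩ := hx
        induction f using Polynomial.induction_on' with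
        | add f g hf hg =>
          simp only [map_add] at *
          rw [U6b_E_add]
          exact add_mem hf hg
        | monomial j a =>
          have h1 : (Polynomial.aeval (z l)) (Polynomial.monomial j a) = (a : F) * z l ^ j := by
            rw [Polynomial.aeval_monomial]
            rfl
          have h2 : U6b_E p w (δ l) (z l) ((a : F) * z l ^ j) = (a : F) *
              U6b_E p w (δ l) (z l) (z l ^ j) := U6b_E_mul p w _ _ _ _ (hconst _ a.2)
          have h3 := U6b_E_pow p w (fun i hi => hw i hi) (δ l) (z l) (by rw [hδ, if_pos rfl]) j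
          have h4 : U6b_E p w (δ l) (z l) (z l ^ j) ∈ 
              Algebra.adjoin (kq F p 1) (z '' (S : Set (Fin s))) := by
            by_cases hj : p ∣ j
            · obtain ⟨t, ht⟩ := h3.2
              obtain ⟨j', rfl⟩ := hj
              rw [ht, mul_comm p j', pow_mul]
              refine mul_mem (intCast_mem _ t) ?_
              exact Subalgebra.algebraMap_mem _ (⟨_, hpk (z l ^ j')⟩ : kq F p 1)
            · rw [h3.1 hj]
              exact zero_mem _
          have h5 := mul_mem a.2 h4
          rw [← h2, ← h1] at h5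
          exact h5
      have hitR : ∀ i, (δ l)^[i] r ∈ R := by
        intro i
        induction i with
        | zero => exact hr
        | succ i ih =>
          rw [Function.iterate_succ_apply']
          exact hR l _ ih
      have hER : U6b_E p w (δ l) (z l) r ∈ R := by
        unfold U6b_E
        refine sum_mem fun i _ => mul_mem (natCast_mem _ _) (mul_mem (pow_mem (neg_mem (hzR l)) _) (hitR i))
      obtain ⟨c, b, hb, hc, hcb⟩ := ih _ hER (hEK r hr')
      let b' : F := ∑ i ∈ Finset.range (p - 1), (w (i + 1) : F) * ((-(z l)) ^ i * (δ l)^[i + 1] r)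
      have hb' : b' ∈ R :=
        sum_mem fun i _ => mul_mem (natCast_mem _ _) (mul_mem (pow_mem (neg_mem (hzR l)) _) (hitR _))
      have h6 : r = U6b_E p w (δ l) (z l) r + b' * z l := by
        have h7 : U6b_E p w (δ l) (z l) r = ∑ i ∈ Finset.range (p - 1 + 1),
            (w i : F) * ((-(z l)) ^ i * (δ l)^[i] r) := by
          rw [Nat.sub_add_cancel hp.one_le]
          rfl
        have h8 : (w 0 : F) = 1 := by
          have := hw 0 hp.pos
          simpa using this
        rw [h7, Finset.sum_range_succ', Function.iterate_zero, h8, pow_zero]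
        simp only [b', Finset.sum_mul, one_mul, id]
        rw [add_right_comm, ← Finset.sum_add_distrib, Finset.sum_eq_zero, zero_add]
        intro i _
        ring
      refine ⟨c, Function.update b l (b l + b'), ?_, hc, ?_⟩
      · intro m
        by_cases hm : m = l
        · subst hm
          rw [Function.update_self]
          exact add_mem (hb _) hb'
        · rw [Function.update_of_ne hm]
          exact hb m
      · rw [h6, hcb, add_assoc]
        congr 1
        rw [← Finset.add_sum_erase _ _ (Finset.mem_univ l),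
          ← Finset.add_sum_erase _ (fun m => Function.update b l (b l + b') m * z m)
            (Finset.mem_univ l), Function.update_self]
        have h9 : ∑ x ∈ Finset.univ.erase l, Function.update b l (b l + b') x * z x =
            ∑ x ∈ Finset.univ.erase l, b x * z x := by
          refine Finset.sum_congr rfl fun m hm => ?_
          rw [Function.update_of_ne (Finset.ne_of_mem_erase hm)]
        rw [h9]
        ring
  refine key Finset.univ r hr ?_
  rw [Finset.coe_univ, Set.image_univ, hz]
  exact Algebra.mem_top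

end Pool.Agent.Lib.MP_1bbd88_ag.U
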