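import Pool.Agent.Lib.MP_1bbd88_ag.U.U6a
import Pool.Agent.Lib.MP_1bbd88_ag.U.U6b
import Pool.Agent.Lib.MP_1bbd88_ag.S.A5

set_option autoImplicit false

namespace Pool.Agent.Lib.MP_1bbd88_ag.U

open Module TensorProduct IsLocalRing Pool.Agent.Lib.MP_1bbd88_ag.S Pool.Agent.Lib.MP_1bbd88_ag.T

variable {K : Type*} [Field K] [IsAlgClosed K] {n p : ℕ} [Fact p.Prime] [CharP K p]

/-- the maximal ideal is generated by the `X (σ l)` -/
theorem gen_max (Q : Ideal (MvPowerSeries (Fin n) K)) [Q.IsPrime]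
    [IsIntegrallyClosed (MvPowerSeries (Fin n) K ⧸ Q)] {s : ℕ}
    (σ : Fin s → Fin n) (X : Fin n → Fin s → MvPowerSeries (Fin n) K)
    (hli : LinearIndependent (FF Q) fun l => dX p 1 Q (σ l))
    (hX : ∀ i, dX p 1 Q i = ∑ l, jj Q (X i l) • dX p 1 Q (σ l)) :
    maximalIdeal (MvPowerSeries (Fin n) K) ≤
      Q ⊔ Ideal.span (Set.range fun l => (MvPowerSeries.X (σ l) : MvPowerSeries (Fin n) K)) := by
  classical
  have hp2 : 2 ≤ p := (Fact.out (p := p.Prime)).two_le
  have hsp : Submodule.span (FF Q) (Set.range fun l => dX p 1 Q (σ l)) = ⊤ := by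
    rw [eq_top_iff, ← span_dX (p := p) 1 Q, Submodule.span_le]
    rintro _ ⟨i, rfl⟩
    rw [SetLike.mem_coe, hX i]
    exact Submodule.sum_mem _ fun l _ => Submodule.smul_mem _ _ (Submodule.subset_span ⟨l, rfl⟩)
  obtain ⟨hz, -⟩ := pbasis_of_basis (F := FF Q) (p := p)
    (fun l => jj Q (MvPowerSeries.X (σ l))) hli hsp
  obtain ⟨δ, hδ1, hδ2⟩ := exists_derivations Q σ X hli hX
  set mP := maximalIdeal (MvPowerSeries (Fin n) K) with hmP
  set S := Ideal.span (Set.range fun l => (MvPowerSeries.X (σ l) : MvPowerSeries (Fin n) K))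
    with hS
  have hQm : Q ≤ mP := le_maximalIdeal (Ideal.IsPrime.ne_top inferInstance)
  have hXm : ∀ i, (MvPowerSeries.X i : MvPowerSeries (Fin n) K) ∈ mP := by
    intro i
    rw [hmP, A5_maximalIdeal]
    have : (MvPowerSeries.X i : MvPowerSeries (Fin n) K) = MvPowerSeries.X i ^ 1 := (pow_one _).symm
    rw [this]
    exact Ideal.subset_span ⟨i, rfl⟩
  have key : mP ≤ (Q ⊔ S) ⊔ mP • mP := by
    intro g hg
    obtain ⟨c, b, hb, ⟨h', hc⟩, hr⟩ := const_term (p := p)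
      (fun l => jj Q (MvPowerSeries.X (σ l))) hz δ hδ1 (jj Q).range
      (by
        rintro l _ ⟨r, rfl⟩
        obtain ⟨h, hh⟩ := hδ2 l r
        exact ⟨h, hh.symm⟩)
      (fun l => ⟨_, rfl⟩) (jj Q g) ⟨g, rfl⟩
    have hint : IsIntegral (MvPowerSeries (Fin n) K ⧸ Q) c := by
      apply IsIntegral.of_pow (n := p) (by omega)
      rw [← hc, jj, RingHom.comp_apply]
      exact isIntegral_algebraMap
    obtain ⟨c', hc'⟩ := IsIntegrallyClosed.algebraMap_eq_of_integral hint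
    obtain ⟨h, rfl⟩ := Ideal.Quotient.mk_surjective c'
    have hch : c = jj Q h := hc'.symm
    choose B hB using hb
    have hQ : g - (h ^ p + ∑ l, B l * MvPowerSeries.X (σ l)) ∈ Q := by
      rw [← jj_ker, map_sub, map_add, map_pow, map_sum, hr, hch]
      simp only [map_mul, hB]
      exact sub_self _
    have hSm : ∑ l, B l * (MvPowerSeries.X (σ l) : MvPowerSeries (Fin n) K) ∈ S :=
      Ideal.sum_mem _ fun l _ => Ideal.mul_mem_left _ _ (Ideal.subset_span ⟨l, rfl⟩)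
    have hSm' : ∑ l, B l * (MvPowerSeries.X (σ l) : MvPowerSeries (Fin n) K) ∈ mP :=
      Ideal.sum_mem _ fun l _ => Ideal.mul_mem_left _ _ (hXm _)
    have hhp : h ^ p ∈ mP := by
      have e1 : h ^ p = g - (g - (h ^ p + ∑ l, B l * MvPowerSeries.X (σ l))) -
          ∑ l, B l * (MvPowerSeries.X (σ l) : MvPowerSeries (Fin n) K) := by ring
      rw [e1]
      exact Ideal.sub_mem _ (Ideal.sub_mem _ hg (hQm hQ)) hSm'
    have hh : h ∈ mP := Ideal.IsPrime.mem_of_pow_mem inferInstance p hhp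
    have hh2 : h ^ p ∈ mP • mP := by
      have h1 := Ideal.pow_mem_pow hh p
      have h2 := Ideal.pow_le_pow_right hp2 h1
      rw [pow_two] at h2
      rw [smul_eq_mul]
      exact h2
    have e2 : g = ((g - (h ^ p + ∑ l, B l * MvPowerSeries.X (σ l))) +
        ∑ l, B l * (MvPowerSeries.X (σ l) : MvPowerSeries (Fin n) K)) + h ^ p := by ring
    rw [e2]
    exact Ideal.add_mem _ (Ideal.mem_sup_left (Ideal.add_mem _ (Ideal.mem_sup_left hQ)
      (Ideal.mem_sup_right hSm))) (Ideal.mem_sup_right hh2)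
  refine Submodule.le_of_le_smul_of_le_jacobson_bot (I := mP) ?_ ?_ key
  · exact IsNoetherian.noetherian _
  · rw [hmP, ← jacobson_eq_maximalIdeal (⊥ : Ideal (MvPowerSeries (Fin n) K)) bot_ne_top]

end Pool.Agent.Lib.MP_1bbd88_ag.U
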