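import Pool.Agent.Lib.MP_1bbd88_ag.U.UDefs
import Mathlib.RingTheory.RegularLocalRing.Defs

set_option autoImplicit false

namespace Pool.Agent.Lib.MP_1bbd88_ag.U

open Module TensorProduct IsLocalRing Pool.Agent.Lib.MP_1bbd88_ag.S Pool.Agent.Lib.MP_1bbd88_ag.T

/-- regularity from generators of the maximal ideal -/
theorem regular_of_gen {K : Type*} [Field K] {n : ℕ} (Q : Ideal (MvPowerSeries (Fin n) K))
    [Q.IsPrime] {s : ℕ} (σ : Fin s → Fin n)
    (hs : ringKrullDim (MvPowerSeries (Fin n) K ⧸ Q) = s)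
    (h : maximalIdeal (MvPowerSeries (Fin n) K) ≤
      Q ⊔ Ideal.span (Set.range fun l => (MvPowerSeries.X (σ l) : MvPowerSeries (Fin n) K))) :
    IsRegularLocalRing (MvPowerSeries (Fin n) K ⧸ Q) := by
  have hN : IsNoetherianRing (MvPowerSeries (Fin n) K) := inferInstance
  have hL : IsLocalRing (MvPowerSeries (Fin n) K ⧸ Q) :=
    IsLocalRing.of_surjective' (Ideal.Quotient.mk Q) Ideal.Quotient.mk_surjective
  apply IsRegularLocalRing.of_spanFinrank_maximalIdeal_le
  have h1 : maximalIdeal (MvPowerSeries (Fin n) K ⧸ Q) =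
      Ideal.span (Set.range fun l => Ideal.Quotient.mk Q (MvPowerSeries.X (σ l))) := by
    apply le_antisymm
    · intro z hz
      obtain ⟨x, rfl⟩ := Ideal.Quotient.mk_surjective z
      have hx : x ∈ maximalIdeal (MvPowerSeries (Fin n) K) := by
        rw [mem_maximalIdeal, mem_nonunits_iff] at hz ⊢
        exact fun hu => hz (hu.map _)
      have h2 := Ideal.mem_map_of_mem (Ideal.Quotient.mk Q) (h hx)
      rw [Ideal.map_sup, Ideal.map_quotient_self, bot_sup_eq, Ideal.map_span, ← Set.range_comp] at h2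
      exact h2
    · rw [Ideal.span_le]
      rintro _ ⟨l, rfl⟩
      rw [SetLike.mem_coe, mem_maximalIdeal, mem_nonunits_iff]
      intro hu
      obtain ⟨z, hz⟩ := hu.exists_right_inv
      obtain ⟨y, rfl⟩ := Ideal.Quotient.mk_surjective z
      rw [← map_mul, ← map_one (Ideal.Quotient.mk Q), Ideal.Quotient.eq] at hz
      have h3 : (MvPowerSeries.X (σ l) : MvPowerSeries (Fin n) K) ∈ maximalIdeal (MvPowerSeries (Fin n) K) := by
        rw [mem_maximalIdeal, mem_nonunits_iff, MvPowerSeries.isUnit_iff_constantCoeff,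
          MvPowerSeries.constantCoeff_X]
        exact not_isUnit_zero
      have h4 := IsLocalRing.le_maximalIdeal (Ideal.IsPrime.ne_top ‹Q.IsPrime›) hz
      have h5 := Ideal.mul_mem_right y _ h3
      have h6 := Ideal.sub_mem _ h5 h4
      rw [sub_sub_cancel] at h6
      exact (Ideal.ne_top_iff_one _).1 (Ideal.IsPrime.ne_top inferInstance) h6
  rw [hs, h1]
  refine le_trans (Nat.cast_le.2 (Submodule.spanFinrank_span_le_ncard_of_finite (Set.finite_range _))) ?_
  rw [Nat.cast_le]
  rw [← Set.image_univ]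
  refine le_trans (Set.ncard_image_le Set.finite_univ) ?_
  rw [Set.ncard_univ, Nat.card_fin]

end Pool.Agent.Lib.MP_1bbd88_ag.U
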