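import Pool.Agent.Lib.MP_1bbd88_ag.U.U5
import Pool.Agent.Lib.MP_1bbd88_ag.U.U6
import Pool.Agent.Lib.MP_1bbd88_ag.U.U7
import Pool.Agent.Lib.MP_1bbd88_ag.U.U11
import Pool.Agent.Lib.MP_1bbd88_ag.U.U13
import Pool.Agent.Lib.MP_1bbd88_ag.T.M0
import Pool.Agent.Lib.MP_1bbd88_ag.S.A6

set_option autoImplicit false

namespace Pool.Agent.Lib.MP_1bbd88_ag.U

open Module TensorProduct IsLocalRing Pool.Agent.Lib.MP_1bbd88_ag.S Pool.Agent.Lib.MP_1bbd88_ag.T

variable {K : Type*} [Field K] [IsAlgClosed K] {n p : ℕ} [Fact p.Prime] [CharP K p]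

theorem U14_co_zero {k B : Type*} [Field k] [CommRing B] [Algebra k B] (z : B) :
    co k z 0 = 0 := by
  have h : (Ideal.span {z ^ 0} : Ideal B) = ⊤ := by
    rw [pow_zero, Ideal.span_singleton_one]
  have h1 : Subsingleton (B ⧸ (Ideal.span {z ^ 0} : Ideal B)) :=
    Ideal.Quotient.subsingleton_iff.2 h
  exact finrank_zero_of_subsingleton

theorem U14_ph_one (k : Type*) [Field k] (d t : ℕ) : ph k d 1 t ≤ 1 := by
  have hfin : FiniteDimensional k (W d 1 k) :=
    finite_quot (q := 1) _ fun i => Ideal.subset_span ⟨i, rfl⟩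
  have h1 : finrank k (W d 1 k) ≤ 1 ^ d := B3_finrank_W d 1
  rw [one_pow] at h1
  have h2 := finrank_quot_add (k := k) (Ideal.span {sq k d 1 ^ t} : Ideal (W d 1 k))
  unfold ph co
  omega

theorem U14_pos (Q : Ideal (MvPowerSeries (Fin n) K)) [Q.IsPrime] (q : ℕ) (hq : q ≠ 0)
    (f : MvPowerSeries (Fin n) K) (hf : f ∈ maximalIdeal (MvPowerSeries (Fin n) K)) :
    0 < finrank K (MvPowerSeries (Fin n) K ⧸ (Q ⊔ Ideal.span {f} ⊔ psI (Fin n) K q)) := by
  set I := Q ⊔ Ideal.span {f} ⊔ psI (Fin n) K q with hI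
  have h1 : psI (Fin n) K q ≤ I := le_sup_right
  have hfin : FiniteDimensional K (MvPowerSeries (Fin n) K ⧸ I) :=
    Module.Finite.of_surjective ((Ideal.Quotient.factorₐ K h1).toLinearMap)
      (Ideal.Quotient.factor_surjective h1)
  have h2 : I ≤ maximalIdeal (MvPowerSeries (Fin n) K) := by
    refine sup_le (sup_le (le_maximalIdeal (Ideal.IsPrime.ne_top inferInstance)) ?_) ?_
    · rw [Ideal.span_singleton_le_iff_mem]
      exact hf
    · rw [psI, Ideal.span_le]
      rintro _ ⟨i, rfl⟩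
      refine Ideal.pow_mem_of_mem _ ?_ q (Nat.pos_of_ne_zero hq)
      rw [mem_maximalIdeal, mem_nonunits_iff, MvPowerSeries.isUnit_iff_constantCoeff,
        MvPowerSeries.constantCoeff_X]
      exact not_isUnit_zero
  have h3 : Nontrivial (MvPowerSeries (Fin n) K ⧸ I) := by
    refine Ideal.Quotient.nontrivial_iff.2 fun h => ?_
    rw [h, top_le_iff] at h2
    exact (maximalIdeal.isMaximal (MvPowerSeries (Fin n) K)).ne_top h2
  exact finrank_pos

/-- quadratic expression of an element of `m ^ 2` -/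
theorem U14_quad (hp : p ≠ 2) (f : MvPowerSeries (Fin n) K)
    (hf : f ∈ maximalIdeal (MvPowerSeries (Fin n) K) ^ 2) :
    ∃ g : Matrix (Fin n) (Fin n) (MvPowerSeries (Fin n) K), g.IsSymm ∧
      f = ∑ i, ∑ j, g i j * (MvPowerSeries.X i * MvPowerSeries.X j) := by
  obtain ⟨h0, hs0, h0'⟩ := exists_hasQ_ps hp f hf
  obtain ⟨h, hs, -, hh⟩ := exists_symm_ps hp _ h0'
  refine ⟨Matrix.of fun i j => MvPowerSeries.C (h0 i j) + h i j, ?_, ?_⟩
  · refine Matrix.IsSymm.ext fun i j => ?_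
    change MvPowerSeries.C (h0 j i) + h j i = MvPowerSeries.C (h0 i j) + h i j
    rw [hs0.apply i j, hs.apply i j]
  · have h1 : f = ∑ i, ∑ j, MvPowerSeries.C (h0 i j) * (MvPowerSeries.X i * MvPowerSeries.X j) +
        ∑ i, ∑ j, h i j * (MvPowerSeries.X i * MvPowerSeries.X j) := by
      rw [← hh]
      ring
    rw [h1, ← Finset.sum_add_distrib]
    refine Finset.sum_congr rfl fun i _ => ?_
    rw [← Finset.sum_add_distrib]
    refine Finset.sum_congr rfl fun j _ => ?_
    rw [Matrix.of_apply, add_mul]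

/-- the size of a coordinate system -/
theorem U14_size (Q : Ideal (MvPowerSeries (Fin n) K)) [Q.IsPrime]
    [FiniteDimensional (kq (FF Q) p 1) (FF Q)] {s m : ℕ}
    (hm : finrank (kq (FF Q) p 1) (FF Q) = p ^ m) (σ : Fin s → Fin n)
    (hli : LinearIndependent (FF Q) fun l => dX p 1 Q (σ l)) (c : Fin n → Fin s → FF Q)
    (hc : ∀ i, dX p 1 Q i = ∑ l, c i l • dX p 1 Q (σ l)) : s = m := by
  have h1 : Submodule.span (FF Q) (Set.range fun l => dX p 1 Q (σ l)) = ⊤ := by
    rw [eq_top_iff, ← span_dX 1 Q, Submodule.span_le]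
    rintro _ ⟨i, rfl⟩
    rw [SetLike.mem_coe, hc i]
    exact Submodule.sum_mem _ fun l _ =>
      Submodule.smul_mem _ _ (Submodule.subset_span ⟨l, rfl⟩)
  have h2 := (pbasis_of_basis (fun l => jj Q (MvPowerSeries.X (σ l))) hli h1).2
  rw [hm] at h2
  exact (Nat.pow_right_injective (Fact.out : p.Prime).two_le h2).symm

/-- the lower bound for `R / f R`, `R` normal and not regular -/
theorem D3_le_normal (hp : p ≠ 2) (d e : ℕ) (Q : Ideal (MvPowerSeries (Fin n) K)) [Q.IsPrime]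
    [IsIntegrallyClosed (MvPowerSeries (Fin n) K ⧸ Q)]
    (hreg : ¬ IsRegularLocalRing (MvPowerSeries (Fin n) K ⧸ Q))
    (hdim : ringKrullDim (MvPowerSeries (Fin n) K ⧸ Q) = (d + 1 : ℕ))
    (f : MvPowerSeries (Fin n) K)
    (hf : f ∈ maximalIdeal (MvPowerSeries (Fin n) K) ^ 2 ⊔ Q) :
    D3 (ph K d (p ^ e)) (p ^ e) ≤ finrank K (MvPowerSeries (Fin n) K ⧸
      (Q ⊔ Ideal.span {f} ⊔ psI (Fin n) K (p ^ e))) := by
  obtain ⟨f', hf', r, hr, rfl⟩ := Submodule.mem_sup.1 hf
  have hI : Q ⊔ Ideal.span {f' + r} ⊔ psI (Fin n) K (p ^ e) =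
      Q ⊔ Ideal.span {f'} ⊔ psI (Fin n) K (p ^ e) := by
    congr 1
    apply le_antisymm
    · refine sup_le le_sup_left ?_
      rw [Ideal.span_singleton_le_iff_mem]
      exact Ideal.add_mem _ (Ideal.mem_sup_right (Ideal.mem_span_singleton_self f'))
        (Ideal.mem_sup_left hr)
    · refine sup_le le_sup_left ?_
      rw [Ideal.span_singleton_le_iff_mem]
      have h1 : (f' + r) - r ∈ Q ⊔ Ideal.span {f' + r} :=
        Ideal.sub_mem _ (Ideal.mem_sup_right (Ideal.mem_span_singleton_self (f' + r)))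
          (Ideal.mem_sup_left hr)
      rwa [add_sub_cancel_right] at h1
  rw [hI]
  rcases Nat.eq_zero_or_pos e with rfl | he
  · have h1 := U14_pos Q (p ^ 0) (by rw [pow_zero]; exact one_ne_zero) f'
      (Ideal.pow_le_self two_ne_zero hf')
    have h2 : D3 (ph K d (p ^ 0)) (p ^ 0) ≤ 1 := by
      rw [pow_zero]
      have h3 := U14_ph_one K d 1
      have h4 : ph K d 1 0 = 0 := U14_co_zero _
      change ph K d 1 1 + ph K d 1 0 + ph K d 1 0 ≤ 1
      omega
    omega
  · have hpd := pdeg (p := p) Q (d + 1) hdim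
    have hpos : 0 < finrank (kq (FF Q) p 1) (FF Q) :=
      lt_of_lt_of_le (pow_pos (Fact.out : p.Prime).pos _) hpd
    have hfin : FiniteDimensional (kq (FF Q) p 1) (FF Q) := Module.finite_of_finrank_pos hpos
    obtain ⟨m, -, hm, -⟩ := exists_pbasis (FF Q) p
    have hmd : d + 1 ≤ m := by
      rw [hm] at hpd
      exact (Nat.pow_le_pow_iff_right (Fact.out : p.Prime).one_lt).1 hpd
    by_cases hcase : d + 2 ≤ m
    · exact D3_le_of_large hp d e Q f' hf' m hm hcase
    · have hmeq : m = d + 1 := by omega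
      subst hmeq
      obtain ⟨g, hg, hfg⟩ := U14_quad hp f' hf'
      by_contra hcon
      apply hreg
      obtain ⟨s, σ, X, hli, hX⟩ := entries_mem Q (dX p 1 Q) g (by
        intro V hV s σ a hli haV ha hdet
        have hs : s = d + 1 := U14_size Q hm σ hli a ha
        subst hs
        apply hcon
        rw [hfg]
        exact D3_le_of_gram hp d e he Q V hV g hg σ hli a haV ha hdet)
      have hs : s = d + 1 := U14_size Q hm σ hli (fun i l => jj Q (X i l)) hX
      subst hs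
      exact regular_of_gen Q σ hdim (gen_max Q σ X hli hX)

end Pool.Agent.Lib.MP_1bbd88_ag.U
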