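import Pool.Agent.Lib.MP_1bbd88_ag.U.UDefs

set_option autoImplicit false

namespace Pool.Agent.Lib.MP_1bbd88_ag.U

open Module TensorProduct IsLocalRing Pool.Agent.Lib.MP_1bbd88_ag.S Pool.Agent.Lib.MP_1bbd88_ag.T

/-- a normal ring is the intersection of the valuation rings dominating it -/
theorem mem_of_dominating {K : Type*} [Field K] {n : ℕ} (Q : Ideal (MvPowerSeries (Fin n) K))
    [Q.IsPrime] [IsIntegrallyClosed (MvPowerSeries (Fin n) K ⧸ Q)] (y : FF Q)
    (h : ∀ V : ValuationSubring (FF Q), Dom Q V → y ∈ V) : ∃ g, jj Q g = y := by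
  by_contra hcon
  push Not at hcon
  have hloc : IsLocalRing (MvPowerSeries (Fin n) K ⧸ Q) :=
    IsLocalRing.of_surjective' (Ideal.Quotient.mk Q) Ideal.Quotient.mk_surjective
  obtain ⟨R, hR⟩ : ∃ R : LocalSubring (FF Q), R.toSubring =
      (algebraMap (MvPowerSeries (Fin n) K ⧸ Q) (FF Q)).range :=
    ⟨LocalSubring.range (algebraMap (MvPowerSeries (Fin n) K ⧸ Q) (FF Q)), by
      rw [LocalSubring.range_toSubring]
      exact SetLike.coe_injective rfl⟩
  have hmemR : ∀ g, jj Q g ∈ R.toSubring := fun g => by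
    rw [hR]
    exact ⟨Ideal.Quotient.mk Q g, rfl⟩
  have hyR : y ∉ R.toSubring := by
    rw [hR]
    rintro ⟨a, ha⟩
    obtain ⟨g, rfl⟩ := Ideal.Quotient.mk_surjective a
    exact hcon g ha
  have hclosed : IsIntegrallyClosedIn R.toSubring (FF Q) := by
    rw [Subring.isIntegrallyClosedIn_iff]
    intro x hx
    let f : (MvPowerSeries (Fin n) K ⧸ Q) →+* R.toSubring :=
      (algebraMap (MvPowerSeries (Fin n) K ⧸ Q) (FF Q)).codRestrict R.toSubring
        (fun a => by rw [hR]; exact ⟨a, rfl⟩)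
    let _ : Algebra (MvPowerSeries (Fin n) K ⧸ Q) R.toSubring := f.toAlgebra
    have _ : IsScalarTower (MvPowerSeries (Fin n) K ⧸ Q) R.toSubring (FF Q) :=
      IsScalarTower.of_algebraMap_eq fun _ => rfl
    have hsurj : Function.Surjective (algebraMap (MvPowerSeries (Fin n) K ⧸ Q) R.toSubring) := by
      rintro ⟨b, hb⟩
      have hb' := hb
      rw [hR] at hb'
      obtain ⟨a, ha⟩ := hb'
      exact ⟨a, Subtype.ext ha⟩
    have _ : Algebra.IsIntegral (MvPowerSeries (Fin n) K ⧸ Q) R.toSubring :=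
      Algebra.isIntegral_of_surjective hsurj
    have hx' : IsIntegral (MvPowerSeries (Fin n) K ⧸ Q) x := isIntegral_trans x hx
    obtain ⟨a, ha⟩ := (isIntegrallyClosed_iff (FF Q)).1 inferInstance hx'
    rw [hR]
    exact ⟨a, ha⟩
  obtain ⟨V, hRV, hyV⟩ := LocalSubring.exists_le_valuationSubring_of_isIntegrallyClosedIn hyR
  obtain ⟨hle, hlh⟩ := hRV
  refine hyV (h V ⟨fun g => hle (hmemR g), fun g hg => ?_⟩)
  rw [ValuationSubring.mem_nonunits_iff_exists_mem_maximalIdeal]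
  refine ⟨hle (hmemR g), ?_⟩
  rw [IsLocalRing.mem_maximalIdeal, mem_nonunits_iff]
  intro hu
  have h1 : IsUnit (⟨jj Q g, hmemR g⟩ : R.toSubring) := hlh.map_nonunit _ hu
  obtain ⟨⟨b, hb⟩, hb1⟩ := isUnit_iff_exists_inv.1 h1
  have hb' := hb
  rw [hR] at hb'
  obtain ⟨a, ha⟩ := hb'
  obtain ⟨v, rfl⟩ := Ideal.Quotient.mk_surjective a
  have h2 : jj Q g * jj Q v = 1 := by
    have h3 := congrArg Subtype.val hb1
    change jj Q g * b = 1 at h3
    rw [← h3, ← ha]
    rfl
  have h4 : jj Q (1 - g * v) = 0 := by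
    rw [map_sub, map_mul, h2, map_one, sub_self]
  rw [jj_ker] at h4
  have h5 : IsUnit (1 - g * v : MvPowerSeries (Fin n) K) := by
    rw [MvPowerSeries.isUnit_iff_constantCoeff, map_sub, map_mul, hg, zero_mul, map_one, sub_zero]
    exact isUnit_one
  exact Ideal.IsPrime.ne_top' (Ideal.eq_top_of_isUnit_mem Q h4 h5)

end Pool.Agent.Lib.MP_1bbd88_ag.U
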