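import Pool.Agent.Lib.MP_1bbd88_ag.U.U5a
import Pool.Agent.Lib.MP_1bbd88_ag.U.U4
import Pool.Agent.Lib.MP_1bbd88_ag.S.C1a
import Pool.Agent.Lib.MP_1bbd88_ag.S.R2

set_option autoImplicit false

namespace Pool.Agent.Lib.MP_1bbd88_ag.U

open Module TensorProduct IsLocalRing Pool.Agent.Lib.MP_1bbd88_ag.S Pool.Agent.Lib.MP_1bbd88_ag.T

private theorem U5_det_mem {F : Type*} [Field F] (V : ValuationSubring F) {s : ℕ}
    (A : Matrix (Fin s) (Fin s) F) (h : ∀ i j, A i j ∈ V) : A.det ∈ V := by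
  rw [Matrix.det_apply]
  refine sum_mem fun σ _ => ?_
  have h1 : ∏ i, A (σ i) i ∈ V := prod_mem fun i _ => h _ _
  rcases Int.units_eq_one_or (Equiv.Perm.sign σ) with h2 | h2
  · rw [h2, one_smul]
    exact h1
  · rw [h2, Units.neg_smul, one_smul]
    exact neg_mem h1

private theorem U5_inv_mem {F : Type*} [Field F] (V : ValuationSubring F) {x : F}
    (hx : x ∉ V.nonunits) : x⁻¹ ∈ V := by
  rw [ValuationSubring.mem_nonunits_iff, not_lt] at hx
  rw [← V.valuation_le_one_iff, map_inv₀]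
  exact inv_le_one_of_one_le₀ hx

private theorem U5_ne_zero {F : Type*} [Field F] (V : ValuationSubring F) {x : F}
    (hx : x ∉ V.nonunits) : x ≠ 0 := by
  rintro rfl
  apply hx
  rw [ValuationSubring.mem_nonunits_iff, map_zero]
  exact zero_lt_one

/-- if all Gram determinants are units then the coordinates lie in the normal ring -/
theorem entries_mem {K : Type*} [Field K] {n : ℕ} (Q : Ideal (MvPowerSeries (Fin n) K))
    [Q.IsPrime] [IsIntegrallyClosed (MvPowerSeries (Fin n) K ⧸ Q)] {M : Type*} [AddCommGroup M]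
    [Module (FF Q) M] (v : Fin n → M)
    (g : Matrix (Fin n) (Fin n) (MvPowerSeries (Fin n) K))
    (H : ∀ V : ValuationSubring (FF Q), Dom Q V → ∀ (s : ℕ) (σ : Fin s → Fin n)
      (a : Matrix (Fin n) (Fin s) (FF Q)), LinearIndependent (FF Q) (fun l => v (σ l)) →
      (∀ i l, a i l ∈ V) → (∀ i, v i = ∑ l, a i l • v (σ l)) →
      (gram (g.map (jj Q)) a).det ∉ V.nonunits) :
    ∃ (s : ℕ) (σ : Fin s → Fin n) (X : Fin n → Fin s → MvPowerSeries (Fin n) K),
      LinearIndependent (FF Q) (fun l => v (σ l)) ∧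
      ∀ i, v i = ∑ l, jj Q (X i l) • v (σ l) := by
  classical
  obtain ⟨V0, hV0, hm0⟩ := exists_dominating Q
  obtain ⟨s, σ, hli, hσ⟩ := valuation_basis V0 v
  choose X0 hXV hX using hσ
  obtain ⟨X, hXX⟩ : ∃ X : Matrix (Fin n) (Fin s) (FF Q), X = Matrix.of X0 := ⟨_, rfl⟩
  have hXV' : ∀ i l, X i l ∈ V0 := by
    intro i l
    rw [hXX]
    exact hXV i l
  have hX' : ∀ i, v i = ∑ l, X i l • v (σ l) := by
    intro i
    rw [hXX]
    exact hX i
  obtain ⟨δ, hδdef⟩ : ∃ δ : FF Q, δ = (gram (g.map (jj Q)) X).det := ⟨_, rfl⟩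
  have hδ : δ ∉ V0.nonunits := by
    rw [hδdef]
    exact H V0 ⟨hV0, hm0⟩ s σ X hli hXV' hX'
  have hδ0 : δ ≠ 0 := U5_ne_zero V0 hδ
  have hδV : δ ∈ V0 := by
    rw [hδdef]
    apply U5_det_mem
    intro l m
    rw [gram, Matrix.mul_apply]
    refine sum_mem fun j _ => mul_mem ?_ (hXV' j m)
    rw [Matrix.mul_apply]
    exact sum_mem fun i _ => mul_mem (hXV' i l) (hV0 _)
  have hone : X.submatrix σ id = 1 :=
    (exists_base_change v σ σ hli hli X X hX' hX').2.1
  have key : ∀ I J : Fin s → Fin n, ∃ r, jj Q r =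
      (X.submatrix I id).det * (X.submatrix J id).det / δ := by
    intro I J
    apply mem_of_dominating Q
    intro V hV
    obtain ⟨s', σ', hli', hσ'⟩ := valuation_basis V v
    choose a0 haV0 ha0 using hσ'
    obtain ⟨a, haa⟩ : ∃ a : Matrix (Fin n) (Fin s') (FF Q), a = Matrix.of a0 := ⟨_, rfl⟩
    have haV : ∀ i l, a i l ∈ V := by
      intro i l
      rw [haa]
      exact haV0 i l
    have ha : ∀ i, v i = ∑ l, a i l • v (σ' l) := by
      intro i
      rw [haa]
      exact ha0 i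
    obtain ⟨hs, -, h2⟩ := exists_base_change v σ σ' hli hli' X a hX' ha
    subst hs
    obtain ⟨h3, h4⟩ := minors_base_change X a (X.submatrix σ' id) h2 (g.map (jj Q))
    have hS := H V hV s σ' a hli' haV ha
    rw [← hδdef] at h3
    have hT : (X.submatrix σ' id).det ≠ 0 := by
      intro h0
      rw [h0] at h3
      apply hδ0
      rw [h3]
      ring
    have hS0 : (gram (g.map (jj Q)) a).det ≠ 0 := U5_ne_zero V hS
    have he : (X.submatrix I id).det * (X.submatrix J id).det / δ =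
        (a.submatrix I id).det * (a.submatrix J id).det * ((gram (g.map (jj Q)) a).det)⁻¹ := by
      rw [h4 I, h4 J, h3]
      field_simp
    rw [he]
    refine mul_mem (mul_mem ?_ ?_) (U5_inv_mem V hS)
    · exact U5_det_mem V _ fun i j => haV _ _
    · exact U5_det_mem V _ fun i j => haV _ _
  -- `δ` is in the image of `P`
  obtain ⟨r0, hr0⟩ := key σ σ
  rw [hone, Matrix.det_one, one_mul] at hr0
  have hu : IsUnit r0 := by
    rw [MvPowerSeries.isUnit_iff_constantCoeff, isUnit_iff_ne_zero]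
    intro h0
    have h1 := hm0 r0 h0
    rw [hr0, ValuationSubring.mem_nonunits_iff, map_div₀, map_one] at h1
    have h2 := (V0.valuation_le_one_iff δ).2 hδV
    have h3 : V0.valuation δ ≠ 0 := (Valuation.ne_zero_iff _).2 hδ0
    rw [div_lt_one₀ (zero_lt_iff.2 h3)] at h1
    exact absurd h1 (not_lt.2 h2)
  obtain ⟨u, hu'⟩ := hu
  have hδu : jj Q (u⁻¹ : (MvPowerSeries (Fin n) K)ˣ) = δ := by
    have h1 : jj Q (u⁻¹ : (MvPowerSeries (Fin n) K)ˣ) * jj Q r0 = 1 := by
      rw [← map_mul, ← hu', Units.inv_mul, map_one]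
    rw [hr0] at h1
    field_simp at h1
    exact h1
  have hmem : ∀ i l, ∃ r, jj Q r = X i l := by
    intro i l
    obtain ⟨r, hr⟩ := key σ (Function.update σ l i)
    rw [hone, Matrix.det_one, one_mul, entry_eq_minor X σ hone i l] at hr
    refine ⟨r * (u⁻¹ : (MvPowerSeries (Fin n) K)ˣ), ?_⟩
    rw [map_mul, hr, hδu, div_mul_cancel₀ _ hδ0]
  choose Y hY using hmem
  refine ⟨s, σ, Y, hli, fun i => ?_⟩
  rw [hX' i]
  exact Finset.sum_congr rfl fun l _ => by rw [hY]

end Pool.Agent.Lib.MP_1bbd88_ag.U
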