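import Pool.Agent.Lib.MP_1bbd88_ag.U.UDefs

set_option autoImplicit false

namespace Pool.Agent.Lib.MP_1bbd88_ag.U

open Module TensorProduct IsLocalRing Pool.Agent.Lib.MP_1bbd88_ag.S Pool.Agent.Lib.MP_1bbd88_ag.T

/-- two coordinate systems of a family of vectors: minors and Gram determinants -/
theorem minors_base_change {F : Type*} [Field F] {n s : ℕ} (X a : Matrix (Fin n) (Fin s) F)
    (T : Matrix (Fin s) (Fin s) F) (hT : X = a * T) (g : Matrix (Fin n) (Fin n) F) :
    (gram g X).det = T.det ^ 2 * (gram g a).det ∧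
    ∀ J : Fin s → Fin n, (X.submatrix J id).det = (a.submatrix J id).det * T.det := by
  subst hT
  constructor
  · have h1 : gram g (a * T) = T.transpose * gram g a * T := by
      unfold gram
      rw [Matrix.transpose_mul]
      simp only [Matrix.mul_assoc]
    rw [h1, Matrix.det_mul, Matrix.det_mul, Matrix.det_transpose]
    ring
  · intro J
    have h1 : (a * T).submatrix J id = a.submatrix J id * T := by
      ext i j
      rfl
    rw [h1, Matrix.det_mul]

/-- the entries of a matrix with an identity block are minors -/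
theorem entry_eq_minor {F : Type*} [Field F] {n s : ℕ} (X : Matrix (Fin n) (Fin s) F)
    (σ : Fin s → Fin n) (hσ : X.submatrix σ id = 1) (i : Fin n) (l : Fin s) :
    (X.submatrix (Function.update σ l i) id).det = X i l := by
  have h1 : X.submatrix (Function.update σ l i) id =
      (1 : Matrix (Fin s) (Fin s) F).updateRow l (X i) := by
    ext r c
    by_cases hr : r = l
    · subst hr
      simp [Matrix.submatrix_apply, Matrix.updateRow_self]
    · have h2 := congrFun (congrFun hσ r) c
      rw [Matrix.submatrix_apply] at h2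
      rw [Matrix.submatrix_apply, Function.update_of_ne hr, Matrix.updateRow_ne hr]
      exact h2
  rw [h1, ← Matrix.cramer_transpose_apply, Matrix.transpose_one, Matrix.cramer_one]
  rfl

private theorem U5a_inj {F M : Type*} [Field F] [AddCommGroup M] [Module F M] {s : ℕ}
    (w : Fin s → M) (hw : LinearIndependent F w) (c d : Fin s → F)
    (h : ∑ l, c l • w l = ∑ l, d l • w l) : c = d := by
  have h1 : ∑ l, (c l - d l) • w l = 0 := by
    simp only [sub_smul, Finset.sum_sub_distrib, h, sub_self]
  have h2 := Fintype.linearIndependent_iff.1 hw (fun l => c l - d l) h1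
  funext l
  exact sub_eq_zero.1 (h2 l)

private theorem U5a_span {F M : Type*} [Field F] [AddCommGroup M] [Module F M] {n s : ℕ}
    (v : Fin n → M) (σ : Fin s → Fin n) (X : Matrix (Fin n) (Fin s) F)
    (hX : ∀ i, v i = ∑ l, X i l • v (σ l)) :
    Submodule.span F (Set.range fun l => v (σ l)) = Submodule.span F (Set.range v) := by
  apply le_antisymm
  · apply Submodule.span_mono
    rintro _ ⟨l, rfl⟩
    exact ⟨σ l, rfl⟩
  · rw [Submodule.span_le]
    rintro _ ⟨i, rfl⟩
    rw [hX i]
    refine Submodule.sum_mem _ fun l _ => Submodule.smul_mem _ _ (Submodule.subset_span ⟨l, rfl⟩)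

/-- coordinates with respect to two subfamilies -/
theorem exists_base_change {F M : Type*} [Field F] [AddCommGroup M] [Module F M] {n s s' : ℕ}
    (v : Fin n → M) (σ : Fin s → Fin n) (σ' : Fin s' → Fin n)
    (hσ : LinearIndependent F fun l => v (σ l)) (hσ' : LinearIndependent F fun l => v (σ' l))
    (X : Matrix (Fin n) (Fin s) F) (a : Matrix (Fin n) (Fin s') F)
    (hX : ∀ i, v i = ∑ l, X i l • v (σ l)) (ha : ∀ i, v i = ∑ l, a i l • v (σ' l)) :
    s = s' ∧ X.submatrix σ id = 1 ∧ X = a * X.submatrix σ' id := by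
  refine ⟨?_, ?_, ?_⟩
  · have h1 := finrank_span_eq_card hσ
    have h2 := finrank_span_eq_card hσ'
    rw [U5a_span v σ X hX, Fintype.card_fin] at h1
    rw [U5a_span v σ' a ha, Fintype.card_fin] at h2
    rw [← h1, ← h2]
  · ext m l
    have h1 : ∑ l, X (σ m) l • v (σ l) =
        ∑ l, (1 : Matrix (Fin s) (Fin s) F) m l • v (σ l) := by
      rw [← hX (σ m)]
      simp [Matrix.one_apply, ite_smul]
    exact congrFun (U5a_inj (fun l => v (σ l)) hσ (X (σ m)) _ h1) l
  · ext i m
    have h1 : ∑ m, X i m • v (σ m) = ∑ m, (a * X.submatrix σ' id) i m • v (σ m) := by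
      rw [← hX i, ha i]
      simp only [Matrix.mul_apply, Finset.sum_smul]
      rw [Finset.sum_comm]
      refine Finset.sum_congr rfl fun l _ => ?_
      conv_lhs => rw [hX (σ' l)]
      rw [Finset.smul_sum]
      refine Finset.sum_congr rfl fun m _ => ?_
      rw [smul_smul]
      rfl
    exact congrFun (U5a_inj (fun l => v (σ l)) hσ (X i) _ h1) m

end Pool.Agent.Lib.MP_1bbd88_ag.U
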