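import Pool.Agent.Lib.MP_1bbd88_ag.U.U1

set_option autoImplicit false

namespace Pool.Agent.Lib.MP_1bbd88_ag.U

open Module TensorProduct IsLocalRing Pool.Agent.Lib.MP_1bbd88_ag.S Pool.Agent.Lib.MP_1bbd88_ag.T

variable {K : Type*} [Field K] [IsAlgClosed K] {n p : ℕ} [Fact p.Prime] [CharP K p]

theorem U6a_dual {F M : Type*} [Field F] [AddCommGroup M] [Module F M] {s : ℕ} (v : Fin s → M)
    (hv : LinearIndependent F v) :
    ∃ ev : Fin s → (M →ₗ[F] F), ∀ l l', ev l (v l') = if l = l' then 1 else 0 := by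
  obtain ⟨g, hg⟩ := LinearMap.exists_extend hv.repr
  refine ⟨fun l => Finsupp.lapply l ∘ₗ g, fun l l' => ?_⟩
  have h1 : g (v l') = Finsupp.single l' 1 := by
    have h2 := LinearMap.congr_fun hg ⟨v l', Submodule.subset_span ⟨l', rfl⟩⟩
    simp only [LinearMap.comp_apply, Submodule.subtype_apply] at h2
    rw [h2]
    exact hv.repr_eq_single l' _ rfl
  rw [LinearMap.comp_apply, h1, Finsupp.lapply_apply, Finsupp.single_apply]
  by_cases h : l = l'
  · rw [if_pos h, if_pos h.symm]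
  · rw [if_neg h, if_neg (Ne.symm h)]

/-- the dual derivations -/
theorem exists_derivations (Q : Ideal (MvPowerSeries (Fin n) K)) [Q.IsPrime] {s : ℕ}
    (σ : Fin s → Fin n) (X : Fin n → Fin s → MvPowerSeries (Fin n) K)
    (hli : LinearIndependent (FF Q) fun l => dX p 1 Q (σ l))
    (hX : ∀ i, dX p 1 Q i = ∑ l, jj Q (X i l) • dX p 1 Q (σ l)) :
    ∃ δ : Fin s → Derivation (kq (FF Q) p 1) (FF Q) (FF Q),
      (∀ l m, δ l (jj Q (MvPowerSeries.X (σ m))) = if l = m then 1 else 0) ∧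
      ∀ l g, ∃ h, δ l (jj Q g) = jj Q h := by
  obtain ⟨ev, hev⟩ := U6a_dual _ hli
  refine ⟨fun l => (ev l).compDer (KaehlerDifferential.D (kq (FF Q) p 1) (FF Q)),
    fun l m => hev l m, fun l g => ?_⟩
  obtain ⟨t, ht⟩ := d_span (p := p) 1 Q g
  refine ⟨∑ i, t i * X i l, ?_⟩
  have h1 : (ev l).compDer (KaehlerDifferential.D (kq (FF Q) p 1) (FF Q)) (jj Q g) =
      ev l (KaehlerDifferential.D (kq (FF Q) p 1) (FF Q) (jj Q g)) := rfl
  have h2 : ∀ i, ev l (KaehlerDifferential.D (kq (FF Q) p 1) (FF Q) (jj Q (MvPowerSeries.X i))) =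
      jj Q (X i l) := by
    intro i
    have h3 := congrArg (ev l) (hX i)
    rw [map_sum] at h3
    refine h3.trans ?_
    rw [Finset.sum_eq_single l]
    · rw [map_smul, hev, if_pos rfl, smul_eq_mul, mul_one]
    · intro m _ hm
      rw [map_smul, hev, if_neg (Ne.symm hm), smul_zero]
    · intro h
      exact absurd (Finset.mem_univ l) h
  rw [h1, ht, map_sum, map_sum]
  refine Finset.sum_congr rfl fun i _ => ?_
  rw [map_smul, h2, map_mul, smul_eq_mul]

end Pool.Agent.Lib.MP_1bbd88_ag.U
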