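import Pool.Agent.Lib.MP_1bbd88_ag.T.TDefs
import Pool.Agent.Lib.MP_1bbd88_ag.S.F0
import Pool.Agent.Lib.MP_1bbd88_ag.S.C3

/-! Definitions for the case of normal rings in the uniqueness theorem. -/

set_option autoImplicit false

namespace Pool.Agent.Lib.MP_1bbd88_ag.U

open Module Pool.Agent.Lib.MP_1bbd88_ag.S Pool.Agent.Lib.MP_1bbd88_ag.T

variable {K : Type*} [Field K] {n : ℕ}

/-- The differential of the variable `X i` in `Ω_{F/F^(p^e)}`. -/
noncomputable def dX (p : ℕ) [Fact p.Prime] [CharP K p] (e : ℕ)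
    (Q : Ideal (MvPowerSeries (Fin n) K)) [Q.IsPrime] (i : Fin n) :
    KaehlerDifferential (kq (FF Q) p e) (FF Q) :=
  KaehlerDifferential.D (kq (FF Q) p e) (FF Q) (jj Q (MvPowerSeries.X i))

/-- The valuation ring `V` dominates `P ⧸ Q`. -/
def Dom (Q : Ideal (MvPowerSeries (Fin n) K)) [Q.IsPrime] (V : ValuationSubring (FF Q)) : Prop :=
  (∀ g, jj Q g ∈ V) ∧
    ∀ g : MvPowerSeries (Fin n) K, MvPowerSeries.constantCoeff g = 0 → jj Q g ∈ V.nonunits

/-- The quadratic form `g` in coordinates. -/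
def gram {F : Type*} [Field F] {n s : ℕ} (g : Matrix (Fin n) (Fin n) F)
    (a : Matrix (Fin n) (Fin s) F) : Matrix (Fin s) (Fin s) F := a.transpose * g * a

end Pool.Agent.Lib.MP_1bbd88_ag.U
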